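import Mathlib

namespace Pool.Agent.Helper52.ETSP

/-- Euclidean distance between two points of `ℤ²`, as an exact real number. -/
noncomputable def edist (p q : ℤ × ℤ) : ℝ :=
  Real.sqrt (((p.1 - q.1 : ℤ) : ℝ) ^ 2 + ((p.2 - q.2 : ℤ) : ℝ) ^ 2)

/-- An instance of EXACT EUCLIDEAN TSP: pairwise distinct points `pt 0, ..., pt (n-1)` of `ℤ²`
and a positive integer bound. -/
structure Instance where
  n : ℕ
  pt : Fin n → ℤ × ℤ
  inj : Function.Injective pt
  bound : ℕ
  bound_pos : 0 < bound

/-- The exact length of the closed tour which visits the points in the order `σ 0, σ 1, ...,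
σ (n-1)` and returns to `σ 0`. -/
noncomputable def Instance.len (I : Instance) (σ : Equiv.Perm (Fin I.n)) : ℝ :=
  ∑ i, edist (I.pt (σ i)) (I.pt (σ (finRotate I.n i)))

/-- Yes-instances: some tour has exact length at most the bound. -/
def Instance.Yes (I : Instance) : Prop := ∃ σ, I.len σ ≤ I.bound

end Pool.Agent.Helper52.ETSP
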