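import Mathlib
import Pool.Agent.Helper52.ETSP.Defs
import Pool.Agent.Helper52.Poly.TreeDefs

namespace Pool.Agent.Helper52.ETSP

open Pool.Agent.Helper52.Poly

/-- The Euclidean length of the vector `(x, y)` with natural coordinates. -/
noncomputable def nrm (v : ℕ × ℕ) : ℝ := Real.sqrt ((v.1 : ℝ) ^ 2 + (v.2 : ℝ) ^ 2)

/-- PLANAR SUM OF SQUARE ROOTS. An instance is a finite list of vectors `(x, y)` with natural
coordinates and a natural number `B`; it is a yes-instance if the sum of the lengths of the vectors
is at most `B`. -/
def SSR (x : List (ℕ × ℕ) × ℕ) : Prop := (x.1.map nrm).sum ≤ x.2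

/-- Twice the signed area of the triangle `p q r`. -/
def orient (p q r : ℤ × ℤ) : ℤ := (q.1 - p.1) * (r.2 - p.2) - (q.2 - p.2) * (r.1 - p.1)

/-- The points are the vertices of a strictly convex polygon, listed counterclockwise: every
triple in the order of the list turns left. -/
def ConvexPos {n : ℕ} (pt : Fin n → ℤ × ℤ) : Prop :=
  ∀ i j k : Fin n, i < j → j < k → 0 < orient (pt i) (pt j) (pt k)

/-- Instances of EXACT EUCLIDEAN TSP are coded by the list of their points and the bound. -/
instance : Enc Instance := ⟨fun I => enc (List.ofFn I.pt, I.bound)⟩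

/-- Instances whose points are the vertices of a strictly convex polygon, listed
counterclockwise. -/
abbrev CInstance : Type := {I : Instance // ConvexPos I.pt}

instance : Enc CInstance := ⟨fun I => enc I.1⟩

end Pool.Agent.Helper52.ETSP
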