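import Mathlib
import Pool.Agent.Helper52.ETSP.CDefs

open Equiv

namespace Pool.Agent.Helper52.ETSP.Conv

theorem orient_rot (p q r : ℤ × ℤ) : orient p q r = orient q r p := by
  unfold orient; ring

/-- The linear form `x cos θ + y sin θ`. -/
noncomputable def lin (t : ℝ) (p : ℤ × ℤ) : ℝ := p.1 * Real.cos t + p.2 * Real.sin t

theorem lin_sub (t : ℝ) (p q : ℤ × ℤ) :
    lin t p - lin t q = ((p.1 - q.1 : ℤ) : ℝ) * Real.cos t + ((p.2 - q.2 : ℤ) : ℝ) * Real.sin t := by
  unfold lin; push_cast; ring

theorem integral_abs_cos : ∫ t in (0 : ℝ)..Real.pi, |Real.cos t| = 2 := by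
  have h1 : ∫ t in (0 : ℝ)..Real.pi, |Real.cos t| =
      (∫ t in (0 : ℝ)..(Real.pi / 2), |Real.cos t|) + ∫ t in (Real.pi / 2)..Real.pi, |Real.cos t| := by
    rw [intervalIntegral.integral_add_adjacent_intervals] <;>
      exact (Real.continuous_cos.abs).intervalIntegrable _ _
  have h2 : ∫ t in (0 : ℝ)..(Real.pi / 2), |Real.cos t| = 1 := by
    have : ∫ t in (0 : ℝ)..(Real.pi / 2), |Real.cos t| = ∫ t in (0 : ℝ)..(Real.pi / 2), Real.cos t := by
      apply intervalIntegral.integral_congr
      intro t ht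
      rw [Set.uIcc_of_le (by positivity)] at ht
      exact abs_of_nonneg (Real.cos_nonneg_of_neg_pi_div_two_le_of_le
        (by linarith [ht.1, Real.pi_pos]) ht.2)
    rw [this, integral_cos]; simp
  have h3 : ∫ t in (Real.pi / 2)..Real.pi, |Real.cos t| = 1 := by
    have : ∫ t in (Real.pi / 2)..Real.pi, |Real.cos t| =
        ∫ t in (Real.pi / 2)..Real.pi, -Real.cos t := by
      apply intervalIntegral.integral_congr
      intro t ht
      rw [Set.uIcc_of_le (by linarith [Real.pi_pos])] at ht
      exact abs_of_nonpos (Real.cos_nonpos_of_pi_div_two_le_of_le ht.1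
        (by linarith [ht.2, Real.pi_pos]))
    rw [this, intervalIntegral.integral_neg, integral_cos]; simp
  rw [h1, h2, h3]; norm_num

theorem integral_abs_form (x y : ℝ) :
    ∫ t in (0 : ℝ)..Real.pi, |x * Real.cos t + y * Real.sin t| = 2 * Real.sqrt (x ^ 2 + y ^ 2) := by
  -- polar form
  obtain ⟨r, φ, hr, hx, hy⟩ : ∃ r φ : ℝ, r = Real.sqrt (x ^ 2 + y ^ 2) ∧ x = r * Real.cos φ ∧
      y = r * Real.sin φ := by
    refine ⟨‖(⟨x, y⟩ : ℂ)‖, Complex.arg ⟨x, y⟩, ?_, ?_, ?_⟩
    · rw [Complex.norm_def, Complex.normSq_mk]; congr 1; ring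
    · exact (Complex.norm_mul_cos_arg (⟨x, y⟩ : ℂ)).symm
    · exact (Complex.norm_mul_sin_arg (⟨x, y⟩ : ℂ)).symm
  have hr0 : 0 ≤ r := by rw [hr]; exact Real.sqrt_nonneg _
  have h1 : ∀ t, |x * Real.cos t + y * Real.sin t| = r * |Real.cos (t - φ)| := by
    intro t
    have e : x * Real.cos t + y * Real.sin t = r * Real.cos (t - φ) := by
      rw [Real.cos_sub, hx, hy]; ring
    rw [e, abs_mul, abs_of_nonneg hr0]
  simp only [h1]
  rw [intervalIntegral.integral_const_mul]
  have h2 : ∫ t in (0 : ℝ)..Real.pi, |Real.cos (t - φ)| =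
      ∫ t in (0 - φ)..(Real.pi - φ), |Real.cos t| :=
    intervalIntegral.integral_comp_sub_right (fun t => |Real.cos t|) φ
  have hper : Function.Periodic (fun t => |Real.cos t|) Real.pi := by
    intro t
    simp only [Real.cos_add_pi, abs_neg]
  have h3 : ∫ t in (0 - φ)..(Real.pi - φ), |Real.cos t| = ∫ t in (0 : ℝ)..(0 + Real.pi), |Real.cos t| := by
    have := hper.intervalIntegral_add_eq (0 - φ) 0
    rw [← this]; congr 1; ring
  rw [h2, h3, zero_add, integral_abs_cos, ← hr]; ring

theorem integral_abs_lin (p q : ℤ × ℤ) :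
    ∫ t in (0 : ℝ)..Real.pi, |lin t p - lin t q| = 2 * edist p q := by
  simp only [lin_sub]
  rw [integral_abs_form]; rfl

theorem lin_integrable (p q : ℤ × ℤ) :
    IntervalIntegrable (fun t => |lin t p - lin t q|) MeasureTheory.volume 0 Real.pi := by
  apply Continuous.intervalIntegrable
  unfold lin
  fun_prop

/-- Four points in counterclockwise order: no linear form separates the diagonals. -/
theorem no_alternation (a b c d : ℤ × ℤ) (h1 : 0 < orient a b c) (h2 : 0 < orient a b d)
    (h3 : 0 < orient a c d) (h4 : 0 < orient b c d) (t x : ℝ)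
    (ha : lin t a ≤ x) (hc : lin t c ≤ x) (hb : x < lin t b) (hd : x < lin t d) : False := by
  have e : (orient b c d : ℝ) * lin t a + (orient a b d : ℝ) * lin t c =
      (orient a c d : ℝ) * lin t b + (orient a b c : ℝ) * lin t d := by
    unfold orient lin; push_cast; ring
  have s : (orient b c d : ℝ) + (orient a b d : ℝ) = (orient a c d : ℝ) + (orient a b c : ℝ) := by
    unfold orient; push_cast; ring
  have p1 : (0 : ℝ) < orient a b c := by exact_mod_cast h1
  have p2 : (0 : ℝ) < orient a b d := by exact_mod_cast h2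
  have p3 : (0 : ℝ) < orient a c d := by exact_mod_cast h3
  have p4 : (0 : ℝ) < orient b c d := by exact_mod_cast h4
  have q1 := mul_le_mul_of_nonneg_left ha p4.le
  have q2 := mul_le_mul_of_nonneg_left hc p2.le
  have q3 := mul_lt_mul_of_pos_left hb p3
  have q4 := mul_lt_mul_of_pos_left hd p1
  have s' : (orient b c d : ℝ) * x + (orient a b d : ℝ) * x =
      (orient a c d : ℝ) * x + (orient a b c : ℝ) * x := by rw [← add_mul, s, add_mul]
  linarith

section cyclic

variable {n : ℕ} (g : ℕ → ℝ) (hg : ∀ k, g (k + n) = g k)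

include hg in
theorem sum_shift (m : ℕ) : ∑ k ∈ Finset.range n, |g (m + k + 1) - g (m + k)| =
    ∑ k ∈ Finset.range n, |g (k + 1) - g k| := by
  induction m with
  | zero => simp
  | succ m ih =>
    rw [← ih]
    have h1 := Finset.sum_range_succ (fun k => |g (m + k + 1) - g (m + k)|) n
    have h2 := Finset.sum_range_succ' (fun k => |g (m + k + 1) - g (m + k)|) n
    rw [h1] at h2
    have h3 : |g (m + n + 1) - g (m + n)| = |g (m + 0 + 1) - g (m + 0)| := by
      rw [show m + n + 1 = (m + 1) + n by ring, hg, hg, add_zero]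
    rw [h3] at h2
    have h4 := add_right_cancel h2
    rw [h4]
    apply Finset.sum_congr rfl
    intro k _
    rw [show m + 1 + k + 1 = m + (k + 1) + 1 by ring, show m + 1 + k = m + (k + 1) by ring]

theorem tele (a b : ℕ) (hab : a ≤ b) : |g b - g a| ≤ ∑ k ∈ Finset.Ico a b, |g (k + 1) - g k| := by
  have := Finset.sum_Ico_sub g hab
  rw [← this]
  exact Finset.abs_sum_le_sum_abs _ _

include hg in
theorem two_mul_le (m M : ℕ) (hM : M ≤ n) : 2 * |g (m + M) - g m| ≤
    ∑ k ∈ Finset.range n, |g (k + 1) - g k| := by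
  rw [← sum_shift g hg m, Finset.range_eq_Ico, ← Finset.sum_Ico_consecutive _ (Nat.zero_le M) hM]
  have h1 := tele (fun k => g (m + k)) 0 M (Nat.zero_le M)
  have h2 := tele (fun k => g (m + k)) M n hM
  have h3 : |g (m + n) - g (m + M)| = |g (m + M) - g m| := by
    rw [hg, abs_sub_comm]
  simp only [add_zero] at h1
  rw [h3] at h2
  have e : ∀ k, g (m + (k + 1)) = g (m + k + 1) := fun k => by rw [add_assoc]
  simp only [e] at h1 h2
  linarith

include hg in
theorem sum_eq_of_mono (m M : ℕ) (hM : M ≤ n) (h1 : ∀ k < M, g (m + k) ≤ g (m + k + 1))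
    (h2 : ∀ k, M ≤ k → k < n → g (m + k + 1) ≤ g (m + k)) :
    ∑ k ∈ Finset.range n, |g (k + 1) - g k| = 2 * (g (m + M) - g m) := by
  rw [← sum_shift g hg m, Finset.range_eq_Ico, ← Finset.sum_Ico_consecutive _ (Nat.zero_le M) hM]
  have e1 : ∑ k ∈ Finset.Ico 0 M, |g (m + k + 1) - g (m + k)| = g (m + M) - g m := by
    rw [Finset.sum_congr rfl (g := fun k => g (m + (k + 1)) - g (m + k)) (fun k hk => by
      rw [Finset.mem_Ico] at hk
      rw [abs_of_nonneg (by linarith [h1 k hk.2])]; rfl)]
    rw [Finset.sum_Ico_sub (fun k => g (m + k)) (Nat.zero_le M), add_zero]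
  have e2 : ∑ k ∈ Finset.Ico M n, |g (m + k + 1) - g (m + k)| = g (m + M) - g m := by
    rw [Finset.sum_congr rfl (g := fun k => -(g (m + (k + 1)) - g (m + k))) (fun k hk => by
      rw [Finset.mem_Ico] at hk
      rw [abs_of_nonpos (by linarith [h2 k hk.1 hk.2])]; rfl)]
    rw [Finset.sum_neg_distrib, Finset.sum_Ico_sub (fun k => g (m + k)) hM, hg]
    ring
  rw [e1, e2]; ring

end cyclic

section polygon

variable {n : ℕ} (hn : 0 < n) (pt : Fin n → ℤ × ℤ)

/-- periodic extension of the list of points -/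
def per (k : ℕ) : ℤ × ℤ := pt ⟨k % n, Nat.mod_lt _ hn⟩

theorem per_add (k : ℕ) : per hn pt (k + n) = per hn pt k := by
  unfold per; congr 2; exact Nat.add_mod_right k n

theorem per_orient (hc : ConvexPos pt) (k1 k2 k3 : ℕ) (h12 : k1 < k2) (h23 : k2 < k3)
    (h31 : k3 < k1 + n) : 0 < orient (per hn pt k1) (per hn pt k2) (per hn pt k3) := by
  obtain ⟨a, rfl⟩ : ∃ a, k2 = k1 + a := ⟨k2 - k1, by omega⟩
  obtain ⟨b, rfl⟩ : ∃ b, k3 = k1 + b := ⟨k3 - k1, by omega⟩
  have ha : a % n = a := Nat.mod_eq_of_lt (by omega)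
  have hb : b % n = b := Nat.mod_eq_of_lt (by omega)
  have hr : k1 % n < n := Nat.mod_lt _ hn
  have ea := Nat.add_mod_eq_ite (m := k1) (n := a) (k := n)
  have eb := Nat.add_mod_eq_ite (m := k1) (n := b) (k := n)
  rw [ha] at ea
  rw [hb] at eb
  unfold per
  by_cases c1 : n ≤ k1 % n + a
  · -- both wrap
    have c2 : n ≤ k1 % n + b := by omega
    rw [if_pos c1] at ea
    rw [if_pos c2] at eb
    rw [orient_rot]
    exact hc _ _ _ (by rw [Fin.lt_def]; simp only [ea, eb]; omega)
      (by rw [Fin.lt_def]; simp only [eb]; omega)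
  · rw [if_neg c1] at ea
    by_cases c2 : n ≤ k1 % n + b
    · rw [if_pos c2] at eb
      rw [← orient_rot]
      exact hc _ _ _ (by rw [Fin.lt_def]; simp only [eb]; omega)
        (by rw [Fin.lt_def]; simp only [ea]; omega)
    · rw [if_neg c2] at eb
      exact hc _ _ _ (by rw [Fin.lt_def]; simp only [ea]; omega)
        (by rw [Fin.lt_def]; simp only [ea, eb]; omega)

theorem form_sum_le (hc : ConvexPos pt) (t : ℝ) (σ : Perm (Fin n)) :
    ∑ k ∈ Finset.range n, |lin t (per hn pt (k + 1)) - lin t (per hn pt k)| ≤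
    ∑ k ∈ Finset.range n, |lin t (per hn (fun i => pt (σ i)) (k + 1)) -
      lin t (per hn (fun i => pt (σ i)) k)| := by
  have : Nonempty (Fin n) := ⟨⟨0, hn⟩⟩
  set g : ℕ → ℝ := fun k => lin t (per hn pt k) with hgdef
  have hg : ∀ k, g (k + n) = g k := fun k => by rw [hgdef]; simp only [per_add]
  -- minimum and maximum
  obtain ⟨m, hm⟩ := Finite.exists_min (fun i : Fin n => lin t (pt i))
  obtain ⟨x, hx⟩ := Finite.exists_max (fun i : Fin n => lin t (pt i))
  have hgm : g m = lin t (pt m) := by
    rw [hgdef]; simp only [per, Nat.mod_eq_of_lt m.2]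
  have hmin : ∀ k, g m ≤ g k := fun k => by rw [hgm]; exact hm _
  obtain ⟨M, hMn, hM⟩ : ∃ M < n, g (m + M) = lin t (pt x) := by
    by_cases hmx : (m : ℕ) ≤ x
    · refine ⟨x - m, by omega, ?_⟩
      rw [hgdef]; simp only [per]
      congr 2
      apply Fin.ext
      show (m + (x - m : ℕ)) % n = x
      rw [Nat.add_sub_cancel' hmx, Nat.mod_eq_of_lt x.2]
    · refine ⟨x + n - m, by omega, ?_⟩
      rw [hgdef]; simp only [per]
      congr 2
      apply Fin.ext
      show (m + (x + n - m : ℕ)) % n = x
      rw [show (m : ℕ) + (x + n - m) = x + n by omega, Nat.add_mod_right, Nat.mod_eq_of_lt x.2]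
  have hmax : ∀ k, g k ≤ g (m + M) := fun k => by rw [hM]; exact hx _
  have up : ∀ k < M, g (m + k) ≤ g (m + k + 1) := by
    intro k hk
    by_contra hcon
    push Not at hcon
    have hk0 : 0 < k := by
      rcases Nat.eq_zero_or_pos k with h | h
      · subst h
        exact absurd (hmin (m + 0 + 1)) (not_le.2 hcon)
      · exact h
    have hkM : k + 1 < M := by
      rcases Nat.lt_or_ge (k + 1) M with h | h
      · exact h
      · have : k + 1 = M := by omega
        have h2 := hmax (m + k)
        rw [← this, ← add_assoc] at h2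
        exact absurd h2 (not_le.2 hcon)
    exact no_alternation (per hn pt m) (per hn pt (m + k)) (per hn pt (m + k + 1))
      (per hn pt (m + M))
      (per_orient hn pt hc _ _ _ (by omega) (by omega) (by omega))
      (per_orient hn pt hc _ _ _ (by omega) (by omega) (by omega))
      (per_orient hn pt hc _ _ _ (by omega) (by omega) (by omega))
      (per_orient hn pt hc _ _ _ (by omega) (by omega) (by omega)) t (g (m + k + 1))
      (hmin _) le_rfl hcon (lt_of_lt_of_le hcon (hmax _))
  have down : ∀ k, M ≤ k → k < n → g (m + k + 1) ≤ g (m + k) := by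
    intro k hk hkn
    by_contra hcon
    push Not at hcon
    have hkM : M < k := by
      rcases Nat.lt_or_ge M k with h | h
      · exact h
      · have : k = M := by omega
        subst this
        exact absurd (hmax (m + k + 1)) (not_le.2 hcon)
    have hk1 : k + 1 < n := by
      rcases Nat.lt_or_ge (k + 1) n with h | h
      · exact h
      · have : k + 1 = n := by omega
        have h2 := hmin (m + k)
        have h3 : g (m + k + 1) = g m := by
          rw [show (m : ℕ) + k + 1 = m + n by omega, hg]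
        rw [h3] at hcon
        exact absurd h2 (not_le.2 hcon)
    have hM0 : 0 < M := by
      rcases Nat.eq_zero_or_pos M with h | h
      · subst h
        have h2 := hmax (m + k + 1)
        have h3 := hmin (m + k)
        rw [add_zero] at h2
        linarith
      · exact h
    -- points m + M, m + k, m + k + 1, m + n
    have e := per_add hn pt m
    refine no_alternation (per hn pt (m + k)) (per hn pt (m + k + 1)) (per hn pt (m + n))
      (per hn pt (m + M + n))
      (per_orient hn pt hc _ _ _ (by omega) (by omega) (by omega))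
      (per_orient hn pt hc _ _ _ (by omega) (by omega) (by omega))
      (per_orient hn pt hc _ _ _ (by omega) (by omega) (by omega))
      (per_orient hn pt hc _ _ _ (by omega) (by omega) (by omega)) t (g (m + k))
      le_rfl ?_ hcon ?_
    · rw [e]; exact hmin _
    · rw [per_add]; exact lt_of_lt_of_le hcon (hmax _)
  have h1 := sum_eq_of_mono g hg m M hMn.le up down
  show ∑ k ∈ Finset.range n, |g (k + 1) - g k| ≤ _
  rw [h1]
  -- the other tour
  set g' : ℕ → ℝ := fun k => lin t (per hn (fun i => pt (σ i)) k) with hg'def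
  have hg' : ∀ k, g' (k + n) = g' k := fun k => by rw [hg'def]; simp only [per_add]
  have key : ∀ i : Fin n, g' (σ.symm i) = lin t (pt i) := by
    intro i
    rw [hg'def]; simp only [per]
    congr 1
    have : (⟨(σ.symm i : ℕ) % n, Nat.mod_lt _ hn⟩ : Fin n) = σ.symm i :=
      Fin.ext (Nat.mod_eq_of_lt (σ.symm i).2)
    rw [this, Equiv.apply_symm_apply]
  have k1 := key m
  have k2 := key x
  rcases le_total (σ.symm m : ℕ) (σ.symm x : ℕ) with hle | hle
  · have := two_mul_le g' hg' (σ.symm m) ((σ.symm x : ℕ) - σ.symm m) (by omega)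
    rw [Nat.add_sub_cancel' hle, k1, k2, ← hM, ← hgm] at this
    exact le_trans (mul_le_mul_of_nonneg_left (le_abs_self _) (by norm_num)) this
  · have := two_mul_le g' hg' (σ.symm x) ((σ.symm m : ℕ) - σ.symm x) (by omega)
    rw [Nat.add_sub_cancel' hle, k1, k2, ← hM, ← hgm, abs_sub_comm] at this
    exact le_trans (mul_le_mul_of_nonneg_left (le_abs_self _) (by norm_num)) this

end polygon

theorem len_eq_range (I : Instance) (hn : 0 < I.n) (σ : Perm (Fin I.n)) (F : ℤ × ℤ → ℤ × ℤ → ℝ) :
    ∑ i, F (I.pt (σ i)) (I.pt (σ (finRotate I.n i))) =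
    ∑ k ∈ Finset.range I.n, F (per hn (fun i => I.pt (σ i)) k)
      (per hn (fun i => I.pt (σ i)) (k + 1)) := by
  rw [Finset.sum_range]
  apply Finset.sum_congr rfl
  intro i _
  unfold per
  have h1 : (⟨(i : ℕ) % I.n, Nat.mod_lt _ hn⟩ : Fin I.n) = i := Fin.ext (Nat.mod_eq_of_lt i.2)
  have h2 : (⟨((i : ℕ) + 1) % I.n, Nat.mod_lt _ hn⟩ : Fin I.n) = finRotate I.n i := by
    obtain ⟨n, pt, inj, b, bp⟩ := I
    obtain ⟨m, rfl⟩ : ∃ m, n = m + 1 := ⟨n - 1, by simp only at hn; omega⟩
    rw [finRotate_apply]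
    apply Fin.ext
    simp [Fin.val_add]
  rw [h1, h2]

/-- For points in convex position listed in cyclic order, the boundary tour is optimal. -/
theorem len_one_le (I : Instance) (hc : ConvexPos I.pt) (σ : Perm (Fin I.n)) :
    I.len 1 ≤ I.len σ := by
  rcases Nat.eq_zero_or_pos I.n with h0 | hn
  · have : IsEmpty (Fin I.n) := by rw [h0]; infer_instance
    unfold Instance.len
    simp
  have key : ∀ σ : Perm (Fin I.n), 2 * I.len σ = ∫ t in (0 : ℝ)..Real.pi,
      ∑ k ∈ Finset.range I.n, |lin t (per hn (fun i => I.pt (σ i)) (k + 1)) -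
        lin t (per hn (fun i => I.pt (σ i)) k)| := by
    intro σ
    rw [intervalIntegral.integral_finsetSum (fun k _ => lin_integrable _ _)]
    unfold Instance.len
    rw [len_eq_range I hn σ edist, Finset.mul_sum]
    apply Finset.sum_congr rfl
    intro k _
    rw [integral_abs_lin]
    congr 1
    unfold edist
    congr 1
    push_cast
    ring
  have h2 : 2 * I.len 1 ≤ 2 * I.len σ := by
    rw [key, key]
    apply intervalIntegral.integral_mono_on Real.pi_pos.le
    · apply Continuous.intervalIntegrable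
      unfold lin
      fun_prop
    · apply Continuous.intervalIntegrable
      unfold lin
      fun_prop
    · intro t _
      exact form_sum_le hn I.pt hc t σ
  linarith

end Pool.Agent.Helper52.ETSP.Conv
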