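import Mathlib
import Pool.Agent.Helper52.ETSP.Convex

/-! Tours as lists. -/

namespace Pool.Agent.Helper52.ETSP.Conv

/-- Sum of a weight along a walk which starts in `p`. -/
noncomputable def walk {A : Type} (F : A → A → ℝ) : A → List A → ℝ
  | _, [] => 0
  | p, q :: l => F p q + walk F q l

theorem walk_concat {A : Type} (F : A → A → ℝ) (p : A) (l : List A) (q : A) :
    walk F p (l ++ [q]) = walk F p l + F (l.getLastD p) q := by
  induction l generalizing p with
  | nil => simp [walk]
  | cons a l ih =>
    rw [List.cons_append, walk, walk, ih a, List.getLastD_cons]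
    ring

theorem walk_append {A : Type} (F : A → A → ℝ) (p : A) (l m : List A) :
    walk F p (l ++ m) = walk F p l + walk F (l.getLastD p) m := by
  induction l generalizing p with
  | nil => simp [walk]
  | cons a l ih =>
    rw [List.cons_append, walk, walk, ih a, List.getLastD_cons]
    ring

theorem sum_succ_eq_walk {A : Type} (F : A → A → ℝ) : ∀ (m : ℕ) (pt : Fin (m + 1) → A),
    ∑ i : Fin m, F (pt i.castSucc) (pt i.succ) = walk F (pt 0) (List.ofFn (fun i => pt i.succ)) := by
  intro m
  induction m with
  | zero => intro pt; simp [walk]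
  | succ m ih =>
    intro pt
    rw [Fin.sum_univ_succ, List.ofFn_succ, walk, Fin.castSucc_zero]
    congr 1
    have := ih (fun i => pt i.succ)
    rw [Fin.succ_zero_eq_one] at *
    rw [← this]
    apply Finset.sum_congr rfl
    intro i _
    rw [Fin.succ_castSucc]

theorem getLastD_ofFn {A : Type} (m : ℕ) (pt : Fin (m + 1) → A) :
    (List.ofFn (fun i : Fin m => pt i.succ)).getLastD (pt 0) = pt (Fin.last m) := by
  induction m with
  | zero => simp
  | succ m ih =>
    rw [List.ofFn_succ, List.getLastD_cons]
    have := ih (fun i => pt i.succ)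
    rw [Fin.succ_last] at this
    exact this

/-- The length of the closed tour, in terms of lists. -/
theorem sum_rotate {A : Type} (F : A → A → ℝ) (m : ℕ) (pt : Fin (m + 1) → A) :
    ∑ i, F (pt i) (pt (finRotate (m + 1) i)) =
      walk F (pt 0) (List.ofFn (fun i => pt i.succ) ++ [pt 0]) := by
  rw [walk_concat, getLastD_ofFn, Fin.sum_univ_castSucc, ← sum_succ_eq_walk]
  congr 1
  · apply Finset.sum_congr rfl
    intro i _
    rw [finRotate_apply, Fin.coeSucc_eq_succ]
  · rw [finRotate_last]

end Pool.Agent.Helper52.ETSP.Conv
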