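import Mathlib
import Pool.Agent.Helper52.ETSP.Walk

/-! Sorting integer vectors by slope, merging parallel ones. -/

namespace Pool.Agent.Helper52.ETSP.Conv

/-- `v` is strictly less steep than `w` -/
def sl (v w : ℕ × ℕ) : Bool := decide (v.2 * w.1 < w.2 * v.1)
/-- `v` and `w` are parallel -/
def par (v w : ℕ × ℕ) : Bool := decide (v.2 * w.1 = w.2 * v.1)
def vadd (v w : ℕ × ℕ) : ℕ × ℕ := (v.1 + w.1, v.2 + w.2)
/-- insert a vector into a sorted list, merging it with the parallel ones -/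
def ins (s : List (ℕ × ℕ)) (v : ℕ × ℕ) : List (ℕ × ℕ) :=
  s.filter (fun w => sl w v) ++
    (((s.filter (fun w => par w v)).foldl vadd v) :: s.filter (fun w => sl v w))
/-- sort by slope, merging parallel vectors -/
def srt (l : List (ℕ × ℕ)) : List (ℕ × ℕ) := l.foldl ins []

def Pos (v : ℕ × ℕ) : Prop := 0 < v.1 ∧ 0 < v.2

theorem sl_trans {u v w : ℕ × ℕ} (hu : Pos u) (hv : Pos v) (hw : Pos w)
    (h1 : u.2 * v.1 < v.2 * u.1) (h2 : v.2 * w.1 < w.2 * v.1) : u.2 * w.1 < w.2 * u.1 := by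
  have h3 : (u.2 * v.1) * w.1 < (v.2 * u.1) * w.1 := Nat.mul_lt_mul_of_pos_right h1 hw.1
  have h4 : (v.2 * w.1) * u.1 < (w.2 * v.1) * u.1 := Nat.mul_lt_mul_of_pos_right h2 hu.1
  have h5 : (u.2 * w.1) * v.1 < (w.2 * u.1) * v.1 := by nlinarith
  exact lt_of_mul_lt_mul_right h5 (Nat.zero_le _)

theorem par_foldl : ∀ (m : List (ℕ × ℕ)) (v u : ℕ × ℕ), u.2 * v.1 = v.2 * u.1 →
    (∀ w ∈ m, w.2 * v.1 = v.2 * w.1) → (m.foldl vadd u).2 * v.1 = v.2 * (m.foldl vadd u).1 := by
  intro m
  induction m with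
  | nil => intro v u h _; exact h
  | cons a m ih =>
    intro v u h hm
    refine ih v (vadd u a) ?_ (fun w hw => hm w (List.mem_cons_of_mem _ hw))
    have := hm a List.mem_cons_self
    simp only [vadd]
    nlinarith

theorem pos_foldl : ∀ (m : List (ℕ × ℕ)) (u : ℕ × ℕ), Pos u → Pos (m.foldl vadd u) := by
  intro m
  induction m with
  | nil => intro u h; exact h
  | cons a m ih =>
    intro u h
    exact ih _ ⟨Nat.add_pos_left h.1 _, Nat.add_pos_left h.2 _⟩

theorem fst_foldl : ∀ (m : List (ℕ × ℕ)) (u : ℕ × ℕ),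
    (m.foldl vadd u).1 = u.1 + (m.map Prod.fst).sum := by
  intro m
  induction m with
  | nil => intro u; simp
  | cons a m ih => intro u; rw [List.foldl_cons, ih, List.map_cons, List.sum_cons, vadd]; omega

theorem snd_foldl : ∀ (m : List (ℕ × ℕ)) (u : ℕ × ℕ),
    (m.foldl vadd u).2 = u.2 + (m.map Prod.snd).sum := by
  intro m
  induction m with
  | nil => intro u; simp
  | cons a m ih => intro u; rw [List.foldl_cons, ih, List.map_cons, List.sum_cons, vadd]; omega

theorem nrm_eq (v : ℕ × ℕ) (h : 0 < v.1) : nrm v = v.1 * Real.sqrt (1 + ((v.2 : ℝ) / v.1) ^ 2) := by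
  have h1 : (0 : ℝ) < v.1 := by exact_mod_cast h
  unfold nrm
  rw [show ((v.1 : ℝ) ^ 2 + (v.2 : ℝ) ^ 2) = (v.1 : ℝ) ^ 2 * (1 + ((v.2 : ℝ) / v.1) ^ 2) by
    field_simp, Real.sqrt_mul (by positivity), Real.sqrt_sq h1.le]

theorem nrm_add {v w : ℕ × ℕ} (hv : Pos v) (hw : Pos w) (h : w.2 * v.1 = v.2 * w.1) :
    nrm (vadd v w) = nrm v + nrm w := by
  have h1 : (0 : ℝ) < v.1 := by exact_mod_cast hv.1
  have h2 : (0 : ℝ) < w.1 := by exact_mod_cast hw.1
  have h3 : (w.2 : ℝ) * v.1 = v.2 * w.1 := by exact_mod_cast h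
  have e1 : (w.2 : ℝ) / w.1 = v.2 / v.1 := by
    rw [div_eq_div_iff h2.ne' h1.ne']; linarith
  have e2 : ((vadd v w).2 : ℝ) / (vadd v w).1 = v.2 / v.1 := by
    simp only [vadd]
    push_cast
    rw [div_eq_div_iff (by positivity) h1.ne']; nlinarith
  rw [nrm_eq v hv.1, nrm_eq w hw.1, nrm_eq (vadd v w) (Nat.add_pos_left hv.1 _), e1, e2]
  simp only [vadd]
  push_cast
  ring

theorem nrm_foldl : ∀ (m : List (ℕ × ℕ)) (v u : ℕ × ℕ), Pos v → Pos u → u.2 * v.1 = v.2 * u.1 →
    (∀ w ∈ m, Pos w ∧ w.2 * v.1 = v.2 * w.1) →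
    nrm (m.foldl vadd u) = nrm u + (m.map nrm).sum := by
  intro m
  induction m with
  | nil => intro v u _ _ _ _; simp
  | cons a m ih =>
    intro v u hv hu h hm
    have ha := hm a List.mem_cons_self
    rw [List.foldl_cons, List.map_cons, List.sum_cons, ih v (vadd u a) hv
      ⟨Nat.add_pos_left hu.1 _, Nat.add_pos_left hu.2 _⟩ (by
        simp only [vadd]; nlinarith [ha.2]) (fun w hw => hm w (List.mem_cons_of_mem _ hw)),
      nrm_add hu ha.1 (by
        have h1 : (a.2 * u.1) * v.1 = (u.2 * a.1) * v.1 := by nlinarith [ha.2]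
        exact Nat.eq_of_mul_eq_mul_right hv.1 h1)]
    ring

theorem sum_three {M : Type} [AddCommMonoid M] (f : ℕ × ℕ → M) (v : ℕ × ℕ) :
    ∀ s : List (ℕ × ℕ), ((s.filter (fun w => sl w v)).map f).sum +
      ((s.filter (fun w => par w v)).map f).sum + ((s.filter (fun w => sl v w)).map f).sum =
      (s.map f).sum := by
  intro s
  induction s with
  | nil => simp
  | cons a s ih =>
    rw [List.map_cons, List.sum_cons, ← ih]
    simp only [List.filter_cons, sl, par]
    rcases lt_trichotomy (a.2 * v.1) (v.2 * a.1) with h | h | h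
    · have h1 : ¬ (a.2 * v.1 = v.2 * a.1) := h.ne
      have h2 : ¬ (v.2 * a.1 < a.2 * v.1) := by omega
      simp only [h, h1, h2, decide_true, decide_false, if_true, Bool.false_eq_true, if_false,
        List.map_cons, List.sum_cons]
      simp only [add_assoc]
    · have h1 : ¬ (a.2 * v.1 < v.2 * a.1) := by omega
      have h2 : ¬ (v.2 * a.1 < a.2 * v.1) := by omega
      simp only [h, lt_irrefl, decide_true, decide_false, if_true, Bool.false_eq_true, if_false,
        List.map_cons, List.sum_cons]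
      simp only [add_assoc, add_left_comm]
    · have h1 : ¬ (a.2 * v.1 < v.2 * a.1) := by omega
      have h2 : ¬ (a.2 * v.1 = v.2 * a.1) := by omega
      simp only [h1, h2, h, decide_true, decide_false, if_true, Bool.false_eq_true, if_false,
        List.map_cons, List.sum_cons]
      simp only [add_assoc, add_left_comm]

theorem ins_pos {s : List (ℕ × ℕ)} {v : ℕ × ℕ} (hs : ∀ w ∈ s, Pos w) (hv : Pos v) :
    ∀ w ∈ ins s v, Pos w := by
  intro w hw
  simp only [ins, List.mem_append, List.mem_cons, List.mem_filter] at hw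
  rcases hw with h | h | h
  · exact hs w h.1
  · rw [h]; exact pos_foldl _ _ hv
  · exact hs w h.1

theorem ins_sorted {s : List (ℕ × ℕ)} {v : ℕ × ℕ} (hs : ∀ w ∈ s, Pos w) (hv : Pos v)
    (h : s.Pairwise (fun v w => v.2 * w.1 < w.2 * v.1)) :
    (ins s v).Pairwise (fun v w => v.2 * w.1 < w.2 * v.1) := by
  set u := (s.filter (fun w => par w v)).foldl vadd v with hu
  have hup : Pos u := pos_foldl _ _ hv
  have huv : u.2 * v.1 = v.2 * u.1 := par_foldl _ _ _ rfl (fun w hw => by
    simp only [List.mem_filter, par, decide_eq_true_eq] at hw; exact hw.2)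
  have k1 : ∀ w, Pos w → w.2 * v.1 < v.2 * w.1 → w.2 * u.1 < u.2 * w.1 := by
    intro w hw h1
    have h2 : (w.2 * v.1) * u.1 < (v.2 * w.1) * u.1 := Nat.mul_lt_mul_of_pos_right h1 hup.1
    have h3 : (w.2 * u.1) * v.1 < (u.2 * w.1) * v.1 := by nlinarith
    exact lt_of_mul_lt_mul_right h3 (Nat.zero_le _)
  have k2 : ∀ w, Pos w → v.2 * w.1 < w.2 * v.1 → u.2 * w.1 < w.2 * u.1 := by
    intro w hw h1
    have h2 : (v.2 * w.1) * u.1 < (w.2 * v.1) * u.1 := Nat.mul_lt_mul_of_pos_right h1 hup.1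
    have h3 : (u.2 * w.1) * v.1 < (w.2 * u.1) * v.1 := by nlinarith
    exact lt_of_mul_lt_mul_right h3 (Nat.zero_le _)
  rw [ins, List.pairwise_append, List.pairwise_cons]
  refine ⟨h.filter _, ⟨?_, h.filter _⟩, ?_⟩
  · intro w hw
    simp only [List.mem_filter, sl, decide_eq_true_eq] at hw
    exact k2 w (hs w hw.1) hw.2
  · intro w hw w' hw'
    simp only [List.mem_filter, sl, decide_eq_true_eq] at hw
    rcases List.mem_cons.1 hw' with h' | h'
    · rw [h', ← hu]; exact k1 w (hs w hw.1) hw.2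
    · simp only [List.mem_filter, sl, decide_eq_true_eq] at h'
      exact sl_trans (hs w hw.1) hv (hs w' h'.1) hw.2 h'.2

theorem ins_nrm {s : List (ℕ × ℕ)} {v : ℕ × ℕ} (hs : ∀ w ∈ s, Pos w) (hv : Pos v) :
    ((ins s v).map nrm).sum = (s.map nrm).sum + nrm v := by
  rw [ins, List.map_append, List.sum_append, List.map_cons, List.sum_cons,
    nrm_foldl _ v v hv hv rfl (fun w hw => by
      simp only [List.mem_filter, par, decide_eq_true_eq] at hw; exact ⟨hs w hw.1, hw.2⟩),
    ← sum_three nrm v s]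
  ring

theorem ins_fst (s : List (ℕ × ℕ)) (v : ℕ × ℕ) :
    ((ins s v).map Prod.fst).sum = (s.map Prod.fst).sum + v.1 := by
  rw [ins, List.map_append, List.sum_append, List.map_cons, List.sum_cons, fst_foldl,
    ← sum_three Prod.fst v s]
  ring

theorem ins_snd (s : List (ℕ × ℕ)) (v : ℕ × ℕ) :
    ((ins s v).map Prod.snd).sum = (s.map Prod.snd).sum + v.2 := by
  rw [ins, List.map_append, List.sum_append, List.map_cons, List.sum_cons, snd_foldl,
    ← sum_three Prod.snd v s]
  ring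

theorem ins_length (s : List (ℕ × ℕ)) (v : ℕ × ℕ) : (ins s v).length ≤ s.length + 1 := by
  have h := sum_three (fun _ => (1 : ℕ)) v s
  simp only [List.map_const', List.sum_replicate, smul_eq_mul, mul_one] at h
  rw [ins, List.length_append, List.length_cons]
  omega

theorem srt_pos {l : List (ℕ × ℕ)} : ∀ s : List (ℕ × ℕ), (∀ w ∈ l, Pos w) → (∀ w ∈ s, Pos w) →
    ∀ w ∈ l.foldl ins s, Pos w := by
  induction l with
  | nil => intro s _ hs; exact hs
  | cons a l ih =>
    intro s hl hs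
    exact ih _ (fun w hw => hl w (List.mem_cons_of_mem _ hw))
      (ins_pos hs (hl a List.mem_cons_self))

theorem srt_sorted {l : List (ℕ × ℕ)} : ∀ s : List (ℕ × ℕ), (∀ w ∈ l, Pos w) →
    (∀ w ∈ s, Pos w) → s.Pairwise (fun v w => v.2 * w.1 < w.2 * v.1) →
    (l.foldl ins s).Pairwise (fun v w => v.2 * w.1 < w.2 * v.1) := by
  induction l with
  | nil => intro s _ _ hs; exact hs
  | cons a l ih =>
    intro s hl hs hp
    exact ih _ (fun w hw => hl w (List.mem_cons_of_mem _ hw))
      (ins_pos hs (hl a List.mem_cons_self)) (ins_sorted hs (hl a List.mem_cons_self) hp)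

theorem srt_nrm {l : List (ℕ × ℕ)} : ∀ s : List (ℕ × ℕ), (∀ w ∈ l, Pos w) →
    (∀ w ∈ s, Pos w) → ((l.foldl ins s).map nrm).sum = (s.map nrm).sum + (l.map nrm).sum := by
  induction l with
  | nil => intro s _ _; simp
  | cons a l ih =>
    intro s hl hs
    rw [List.foldl_cons, ih _ (fun w hw => hl w (List.mem_cons_of_mem _ hw))
      (ins_pos hs (hl a List.mem_cons_self)), ins_nrm hs (hl a List.mem_cons_self),
      List.map_cons, List.sum_cons]
    ring

theorem srt_fst (l : List (ℕ × ℕ)) : ∀ s : List (ℕ × ℕ),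
    ((l.foldl ins s).map Prod.fst).sum = (s.map Prod.fst).sum + (l.map Prod.fst).sum := by
  induction l with
  | nil => intro s; simp
  | cons a l ih => intro s; rw [List.foldl_cons, ih, ins_fst, List.map_cons, List.sum_cons]; ring

theorem srt_snd (l : List (ℕ × ℕ)) : ∀ s : List (ℕ × ℕ),
    ((l.foldl ins s).map Prod.snd).sum = (s.map Prod.snd).sum + (l.map Prod.snd).sum := by
  induction l with
  | nil => intro s; simp
  | cons a l ih => intro s; rw [List.foldl_cons, ih, ins_snd, List.map_cons, List.sum_cons]; ring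

theorem srt_length (l : List (ℕ × ℕ)) : ∀ s : List (ℕ × ℕ),
    (l.foldl ins s).length ≤ s.length + l.length := by
  induction l with
  | nil => intro s; simp
  | cons a l ih =>
    intro s
    have := ih (ins s a)
    have := ins_length s a
    rw [List.foldl_cons, List.length_cons]
    omega

end Pool.Agent.Helper52.ETSP.Conv
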