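import Mathlib
import Pool.Agent.Helper52.ETSP.Sort

/-! The reduction from sums of lengths of integer vectors to tours through points in convex
position. -/

namespace Pool.Agent.Helper52.ETSP.Conv

/-- partial sums -/
def psum : ℕ × ℕ → List (ℕ × ℕ) → List (ℕ × ℕ)
  | a, [] => [a]
  | a, v :: s => a :: psum (vadd a v) s

def toZ (p : ℕ × ℕ) : ℤ × ℤ := (p.1, p.2)

/-- orientation of points with natural coordinates -/
def orN (p q r : ℕ × ℕ) : ℤ := orient (toZ p) (toZ q) (toZ r)

def crs (v w : ℕ × ℕ) : ℤ := (v.1 : ℤ) * w.2 - v.2 * w.1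

theorem orN_vadd (a u w : ℕ × ℕ) : orN a (vadd a u) (vadd (vadd a u) w) = crs u w := by
  simp only [orN, orient, toZ, vadd, crs]; push_cast; ring

theorem mem_psum : ∀ (s : List (ℕ × ℕ)) (b q : ℕ × ℕ), q ∈ psum b s →
    q = b ∨ ∃ s1 s2, s = s1 ++ s2 ∧ s1 ≠ [] ∧ q = s1.foldl vadd b := by
  intro s
  induction s with
  | nil => intro b q h; simp [psum] at h; exact Or.inl h
  | cons v s ih =>
    intro b q h
    rcases List.mem_cons.1 h with h | h
    · exact Or.inl h
    · right
      rcases ih _ _ h with h | ⟨s1, s2, e1, e2, e3⟩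
      · exact ⟨[v], s, rfl, by simp, h⟩
      · exact ⟨v :: s1, s2, by rw [e1]; rfl, by simp, e3⟩

theorem crs_foldl (u : ℕ × ℕ) : ∀ (s : List (ℕ × ℕ)) (a b : ℕ × ℕ), (∀ w ∈ s, 0 < crs u w) →
    orient (toZ a) (toZ (vadd a u)) (toZ b) ≤ orient (toZ a) (toZ (vadd a u)) (toZ (s.foldl vadd b)) ∧
    (s ≠ [] → orient (toZ a) (toZ (vadd a u)) (toZ b) <
      orient (toZ a) (toZ (vadd a u)) (toZ (s.foldl vadd b))) := by
  intro s
  induction s with
  | nil => intro a b _; exact ⟨le_rfl, fun h => absurd rfl h⟩
  | cons w s ih =>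
    intro a b h
    have h1 := ih a (vadd b w) (fun x hx => h x (List.mem_cons_of_mem _ hx))
    have h2 := h w List.mem_cons_self
    have h3 : orient (toZ a) (toZ (vadd a u)) (toZ b) <
        orient (toZ a) (toZ (vadd a u)) (toZ (vadd b w)) := by
      simp only [orient, toZ, vadd, crs] at *
      push_cast at *
      nlinarith
    exact ⟨le_trans h3.le h1.1, fun _ => lt_of_lt_of_le h3 h1.1⟩

theorem psum_pairwise : ∀ (s : List (ℕ × ℕ)) (a u : ℕ × ℕ), (∀ w ∈ s, 0 < crs u w) →
    s.Pairwise (fun v w => 0 < crs v w) →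
    (psum (vadd a u) s).Pairwise (fun p q => 0 < orN a p q) := by
  intro s
  induction s with
  | nil => intro a u _ _; simp [psum]
  | cons v s ih =>
    intro a u h hp
    rw [psum, List.pairwise_cons]
    have hp' := List.pairwise_cons.1 hp
    constructor
    · intro q hq
      have h0 : orient (toZ a) (toZ (vadd a u)) (toZ (vadd a u)) = 0 := by
        simp only [orient]; ring
      have hq' : ∃ s1 : List (ℕ × ℕ), s1 ≠ [] ∧ (∀ x ∈ s1, x ∈ v :: s) ∧
          q = s1.foldl vadd (vadd a u) := by
        rcases mem_psum _ _ _ hq with h1 | ⟨s1, s2, e1, e2, e3⟩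
        · exact ⟨[v], by simp, by simp, h1⟩
        · exact ⟨v :: s1, by simp, fun x hx => by
            rw [e1]
            rcases List.mem_cons.1 hx with hx | hx
            · simp [hx]
            · simp [hx], e3⟩
      obtain ⟨s1, e1, e2, e3⟩ := hq'
      have := (crs_foldl u s1 a (vadd a u) (fun w hw => h w (e2 w hw))).2 e1
      rw [h0, ← e3] at this
      exact this
    · have e : vadd (vadd a u) v = vadd a (vadd u v) := by simp [vadd, add_assoc]
      rw [e]
      refine ih a (vadd u v) (fun w hw => ?_) hp'.2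
      have h1 := h w (List.mem_cons_of_mem _ hw)
      have h2 := hp'.1 w hw
      simp only [crs, vadd] at *
      push_cast
      nlinarith

theorem psum_triplewise : ∀ (s : List (ℕ × ℕ)) (a : ℕ × ℕ),
    s.Pairwise (fun v w => 0 < crs v w) → (psum a s).Triplewise (fun p q r => 0 < orN p q r) := by
  intro s
  induction s with
  | nil => intro a _; simp [psum]
  | cons v s ih =>
    intro a hp
    have hp' := List.pairwise_cons.1 hp
    rw [psum, List.triplewise_cons]
    exact ⟨psum_pairwise s a v hp'.1 hp'.2, ih _ hp'.2⟩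

theorem psum_concat : ∀ (s : List (ℕ × ℕ)) (a t : ℕ × ℕ),
    psum a (s ++ [t]) = psum a s ++ [vadd (s.foldl vadd a) t] := by
  intro s
  induction s with
  | nil => intro a t; rfl
  | cons v s ih => intro a t; rw [List.cons_append, psum, psum, ih]; rfl

/-- coordinates along the partial sums -/
theorem psum_incr : ∀ (s : List (ℕ × ℕ)) (a : ℕ × ℕ), (∀ w ∈ s, Pos w) →
    (psum a s).Pairwise (fun p q => p.1 < q.1 ∧ p.2 < q.2) ∧
    (∀ q ∈ psum a s, a.1 ≤ q.1 ∧ a.2 ≤ q.2 ∧ q.1 ≤ (s.foldl vadd a).1 ∧
      q.2 ≤ (s.foldl vadd a).2) := by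
  intro s
  induction s with
  | nil => intro a _; simp [psum]
  | cons v s ih =>
    intro a h
    obtain ⟨h1, h2⟩ := ih (vadd a v) (fun w hw => h w (List.mem_cons_of_mem _ hw))
    have hv := h v List.mem_cons_self
    rw [psum, List.pairwise_cons]
    refine ⟨⟨fun q hq => ?_, h1⟩, fun q hq => ?_⟩
    · have := h2 q hq
      simp only [vadd, Pos] at *
      omega
    · rcases List.mem_cons.1 hq with hq | hq
      · subst hq
        rw [List.foldl_cons]
        have h3 := fst_foldl s (vadd q v)
        have h4 := snd_foldl s (vadd q v)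
        simp only [vadd] at *
        omega
      · have := h2 q hq
        rw [List.foldl_cons]
        simp only [vadd] at *
        omega

/-! ### The reduction -/

/-- contribution of the horizontal vectors, plus one -/
def hxx (l : List (ℕ × ℕ)) : ℕ := l.foldl (fun n v => if v.2 = 0 then n + v.1 else n) 1
/-- contribution of the vertical vectors, plus one -/
def vyy (l : List (ℕ × ℕ)) : ℕ := l.foldl (fun n v => if v.1 = 0 then n + v.2 else n) 1
/-- the vectors with two positive coordinates, sorted and merged -/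
def mid (l : List (ℕ × ℕ)) : List (ℕ × ℕ) :=
  srt (l.filter (fun v => !decide (v.1 = 0) && !decide (v.2 = 0)))
/-- the end of the slanted part -/
def top (l : List (ℕ × ℕ)) : ℕ × ℕ := (mid l).foldl vadd (hxx l, 0)
/-- the points -/
def redPts (l : List (ℕ × ℕ)) : List (ℕ × ℕ) :=
  (0, 0) :: (psum (hxx l, 0) (mid l) ++ [((top l).1, (top l).2 + vyy l), (0, (top l).2 + vyy l)])
/-- the length bound -/
def redB (l : List (ℕ × ℕ)) (B : ℕ) : ℕ := B + 2 + (top l).1 + ((top l).2 + vyy l)

theorem hxx_eq (l : List (ℕ × ℕ)) : ∀ n : ℕ,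
    l.foldl (fun n v => if v.2 = 0 then n + v.1 else n) n =
      n + ((l.filter (fun v => decide (v.2 = 0))).map Prod.fst).sum := by
  induction l with
  | nil => intro n; simp
  | cons a l ih =>
    intro n
    rw [List.foldl_cons, ih, List.filter_cons]
    by_cases h : a.2 = 0
    · simp [h]; omega
    · simp [h]

theorem vyy_eq (l : List (ℕ × ℕ)) : ∀ n : ℕ,
    l.foldl (fun n v => if v.1 = 0 then n + v.2 else n) n =
      n + ((l.filter (fun v => decide (v.1 = 0))).map Prod.snd).sum := by
  induction l with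
  | nil => intro n; simp
  | cons a l ih =>
    intro n
    rw [List.foldl_cons, ih, List.filter_cons]
    by_cases h : a.1 = 0
    · simp [h]; omega
    · simp [h]

theorem hxx_pos (l : List (ℕ × ℕ)) : 0 < hxx l := by
  unfold hxx; rw [hxx_eq]; omega
theorem vyy_pos (l : List (ℕ × ℕ)) : 0 < vyy l := by
  unfold vyy; rw [vyy_eq]; omega

theorem filter_pos (l : List (ℕ × ℕ)) :
    ∀ w ∈ l.filter (fun v => !decide (v.1 = 0) && !decide (v.2 = 0)), Pos w := by
  intro w hw
  simp only [List.mem_filter, Bool.and_eq_true, Bool.not_eq_true', decide_eq_false_iff_not] at hw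
  exact ⟨Nat.pos_of_ne_zero hw.2.1, Nat.pos_of_ne_zero hw.2.2⟩

theorem mid_pos (l : List (ℕ × ℕ)) : ∀ w ∈ mid l, Pos w :=
  srt_pos [] (filter_pos l) (by simp)

theorem mid_sorted (l : List (ℕ × ℕ)) : (mid l).Pairwise (fun v w => 0 < crs v w) := by
  have := srt_sorted [] (filter_pos l) (by simp) List.Pairwise.nil
  refine this.imp (fun {a b} h => ?_)
  unfold crs
  have h' : (a.2 * b.1 : ℤ) < b.2 * a.1 := by exact_mod_cast h
  nlinarith

theorem nrm_x (n : ℕ) : nrm (n, 0) = n := by
  unfold nrm; simp
theorem nrm_y (n : ℕ) : nrm (0, n) = n := by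
  unfold nrm; simp

theorem nrm_split (l : List (ℕ × ℕ)) : (l.map nrm).sum + 2 =
    hxx l + vyy l + ((mid l).map nrm).sum := by
  have h1 : ((mid l).map nrm).sum = ((l.filter (fun v => !decide (v.1 = 0) &&
      !decide (v.2 = 0))).map nrm).sum := by
    have := srt_nrm [] (filter_pos l) (by simp)
    rw [List.map_nil, List.sum_nil, zero_add] at this
    exact this
  rw [h1]
  unfold hxx vyy
  rw [hxx_eq, vyy_eq]
  have h2 : (l.map nrm).sum = (((l.filter (fun v => decide (v.2 = 0))).map Prod.fst).sum : ℝ) +
      (((l.filter (fun v => decide (v.1 = 0))).map Prod.snd).sum : ℝ) +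
      ((l.filter (fun v => !decide (v.1 = 0) && !decide (v.2 = 0))).map nrm).sum := by
    clear h1
    induction l with
    | nil => simp
    | cons a l ih =>
      rw [List.map_cons, List.sum_cons, ih, List.filter_cons, List.filter_cons, List.filter_cons]
      obtain ⟨x, y⟩ := a
      by_cases hx : x = 0
      · by_cases hy : y = 0
        · subst hx; subst hy
          simp [nrm_x 0]
        · subst hx
          simp [hy, nrm_y]; ring
      · by_cases hy : y = 0
        · subst hy
          simp [hx, nrm_x]; ring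
        · simp [hx, hy]; ring
  rw [h2]
  push_cast
  ring

theorem redPts_eq (l : List (ℕ × ℕ)) : redPts l =
    psum (0, 0) ((hxx l, 0) :: (mid l ++ [(0, vyy l)])) ++ [(0, (top l).2 + vyy l)] := by
  rw [psum]
  have e : vadd (0, 0) (hxx l, 0) = (hxx l, 0) := by simp [vadd]
  rw [e, psum_concat]
  have e2 : vadd ((mid l).foldl vadd (hxx l, 0)) (0, vyy l) = ((top l).1, (top l).2 + vyy l) := by
    simp [vadd, top]
  rw [e2]
  simp [redPts]

theorem redPts_triplewise (l : List (ℕ × ℕ)) :
    (redPts l).Triplewise (fun p q r => 0 < orN p q r) := by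
  rw [redPts_eq, List.triplewise_append]
  have hx := hxx_pos l
  have hy := vyy_pos l
  have hinc := psum_incr (mid l) (hxx l, 0) (mid_pos l)
  have htop : (mid l).foldl vadd (hxx l, 0) = top l := rfl
  rw [htop] at hinc
  have hpw : ((hxx l, 0) :: (mid l ++ [(0, vyy l)])).Pairwise (fun v w => 0 < crs v w) := by
    rw [List.pairwise_cons, List.pairwise_append]
    refine ⟨fun w hw => ?_, mid_sorted l, by simp, fun v hv w hw => ?_⟩
    · rcases List.mem_append.1 hw with h | h
      · have := mid_pos l w h
        simp only [crs, Pos] at *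
        push_cast
        have h1 : (0 : ℤ) < hxx l := by exact_mod_cast hx
        have h2 : (0 : ℤ) < w.2 := by exact_mod_cast this.2
        nlinarith [mul_pos h1 h2]
      · rw [List.mem_singleton] at h
        subst h
        simp only [crs]
        push_cast
        have h1 : (0 : ℤ) < hxx l := by exact_mod_cast hx
        have h2 : (0 : ℤ) < vyy l := by exact_mod_cast hy
        nlinarith [mul_pos h1 h2]
    · rw [List.mem_singleton] at hw
      subst hw
      have := mid_pos l v hv
      simp only [crs, Pos] at *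
      push_cast
      have h1 : (0 : ℤ) < v.1 := by exact_mod_cast this.1
      have h2 : (0 : ℤ) < vyy l := by exact_mod_cast hy
      nlinarith [mul_pos h1 h2]
  refine ⟨psum_triplewise _ _ hpw, by simp, fun a ha => by simp, fun a ha => ?_⟩
  rw [List.mem_singleton] at ha
  subst ha
  have e : vadd (0, 0) (hxx l, 0) = (hxx l, 0) := by simp [vadd]
  have e2 : vadd ((mid l).foldl vadd (hxx l, 0)) (0, vyy l) = ((top l).1, (top l).2 + vyy l) := by
    simp [vadd, top]
  rw [psum, e, psum_concat, e2, List.pairwise_cons, List.pairwise_append]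
  have hor : ∀ p q : ℕ × ℕ, orN p q (0, (top l).2 + vyy l) =
      ((q.1 : ℤ) - p.1) * ((top l).2 + vyy l - q.2) + ((q.2 : ℤ) - p.2) * q.1 := by
    intro p q
    simp only [orN, orient, toZ]; push_cast; ring
  have hy' : (0 : ℤ) < vyy l := by exact_mod_cast hy
  have hx' : (0 : ℤ) < hxx l := by exact_mod_cast hx
  have hX : (hxx l : ℤ) ≤ (top l).1 := by
    have := (hinc.2 (hxx l, 0) (by cases mid l <;> simp [psum])).2.2.1
    exact_mod_cast this
  refine ⟨fun q hq => ?_, hinc.1.imp_of_mem (fun {p q} hp hq h => ?_), by simp,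
    fun p hp q hq => ?_⟩
  · rw [hor]
    rcases List.mem_append.1 hq with h | h
    · obtain ⟨h1, h2, h3, h4⟩ := hinc.2 q h
      have h1' : (hxx l : ℤ) ≤ q.1 := by exact_mod_cast h1
      have h4' : (q.2 : ℤ) ≤ (top l).2 := by exact_mod_cast h4
      have h5 : (0 : ℤ) ≤ q.2 := by positivity
      push_cast
      nlinarith [mul_pos (show (0 : ℤ) < q.1 by linarith)
        (show (0 : ℤ) < (top l).2 + vyy l - q.2 by linarith),
        mul_nonneg h5 (show (0 : ℤ) ≤ q.1 by linarith)]
    · rw [List.mem_singleton] at h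
      subst h
      push_cast
      have h6 : (0 : ℤ) ≤ (top l).2 := by positivity
      nlinarith [mul_pos (show (0 : ℤ) < (top l).2 + vyy l by linarith)
        (show (0 : ℤ) < (top l).1 by linarith)]
  · rw [hor]
    obtain ⟨h1, h2, h3, h4⟩ := hinc.2 q hq
    have h1' : (hxx l : ℤ) ≤ q.1 := by exact_mod_cast h1
    have h4' : (q.2 : ℤ) ≤ (top l).2 := by exact_mod_cast h4
    have h5 : (p.1 : ℤ) < q.1 := by exact_mod_cast h.1
    have h6 : (p.2 : ℤ) < q.2 := by exact_mod_cast h.2
    have := mul_pos (show (0 : ℤ) < q.1 - p.1 by linarith)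
      (show (0 : ℤ) < (top l).2 + vyy l - q.2 by linarith)
    have := mul_pos (show (0 : ℤ) < q.2 - p.2 by linarith) (show (0 : ℤ) < q.1 by linarith)
    linarith
  · rw [List.mem_singleton] at hq
    subst hq
    rw [hor]
    obtain ⟨h1, h2, h3, h4⟩ := hinc.2 p hp
    have h4' : (p.2 : ℤ) ≤ (top l).2 := by exact_mod_cast h4
    push_cast
    have := mul_pos (show (0 : ℤ) < (top l).2 + vyy l - p.2 by linarith)
      (show (0 : ℤ) < (top l).1 by linarith)
    nlinarith

theorem redPts_conv (l : List (ℕ × ℕ)) : ConvexPos (fun i => toZ ((redPts l).get i)) := by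
  have h := List.triplewise_iff_getElem.1 (redPts_triplewise l)
  intro i j k hij hjk
  exact h i j k hij hjk k.2

theorem redPts_length (l : List (ℕ × ℕ)) : 4 ≤ (redPts l).length := by
  unfold redPts
  cases mid l <;> simp [psum]

theorem inj_of_convexPos {n : ℕ} (hn : 3 ≤ n) (pt : Fin n → ℤ × ℤ) (h : ConvexPos pt) :
    Function.Injective pt := by
  have key : ∀ i j : Fin n, i < j → pt i ≠ pt j := by
    intro i j hij he
    by_cases h0 : (i : ℕ) = 0
    · by_cases h1 : (j : ℕ) = n - 1
      · have := h i ⟨1, by omega⟩ j (by rw [Fin.lt_def]; simp only; omega)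
          (by rw [Fin.lt_def]; simp only; omega)
        rw [he] at this
        unfold orient at this
        nlinarith
      · have := h i j ⟨n - 1, by omega⟩ hij (by rw [Fin.lt_def]; simp only; have := j.2; omega)
        rw [he] at this
        unfold orient at this
        nlinarith
    · have := h ⟨0, by omega⟩ i j (by rw [Fin.lt_def]; simp only; omega) hij
      rw [he] at this
      unfold orient at this
      nlinarith
  intro i j he
  rcases lt_trichotomy i j with h1 | h1 | h1
  · exact absurd he (key i j h1)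
  · exact h1
  · exact absurd he.symm (key j i h1)

/-- the instance produced by the reduction -/
def redI (x : List (ℕ × ℕ) × ℕ) : Instance where
  n := (redPts x.1).length
  pt := fun i => toZ ((redPts x.1).get i)
  inj := inj_of_convexPos (by have := redPts_length x.1; omega) _ (redPts_conv x.1)
  bound := redB x.1 x.2
  bound_pos := by unfold redB; omega

/-! ### Length of the boundary tour -/

theorem edist_toZ (p q : ℕ × ℕ) (h1 : p.1 ≤ q.1) (h2 : p.2 ≤ q.2) :
    edist (toZ p) (toZ q) = nrm (q.1 - p.1, q.2 - p.2) := by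
  unfold edist nrm toZ
  congr 1
  push_cast [h1, h2]
  ring

theorem walk_psum : ∀ (s : List (ℕ × ℕ)) (p a : ℕ × ℕ),
    walk (fun p q => edist (toZ p) (toZ q)) p (psum a s) =
      edist (toZ p) (toZ a) + (s.map nrm).sum := by
  intro s
  induction s with
  | nil => intro p a; simp [psum, walk]
  | cons v s ih =>
    intro p a
    rw [psum, walk, ih, List.map_cons, List.sum_cons]
    have : edist (toZ a) (toZ (vadd a v)) = nrm v := by
      rw [edist_toZ _ _ (by simp [vadd]) (by simp [vadd])]
      simp [vadd]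
    rw [this]

theorem getLastD_psum : ∀ (s : List (ℕ × ℕ)) (p a : ℕ × ℕ),
    (psum a s).getLastD p = s.foldl vadd a := by
  intro s
  induction s with
  | nil => intro p a; simp [psum]
  | cons v s ih => intro p a; rw [psum, List.getLastD_cons, ih]; rfl

theorem edist_comm (p q : ℤ × ℤ) : edist p q = edist q p := by
  unfold edist; congr 1; push_cast; ring

theorem redI_len (x : List (ℕ × ℕ) × ℕ) : (redI x).len 1 = (x.1.map nrm).sum + 2 +
    (top x.1).1 + ((top x.1).2 + vyy x.1) := by
  obtain ⟨l, B⟩ := x
  set L := psum (hxx l, 0) (mid l) ++ [((top l).1, (top l).2 + vyy l), (0, (top l).2 + vyy l)]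
    with hL
  have e1 : (redI (l, B)).len 1 = walk (fun p q => edist (toZ p) (toZ q)) (0, 0) (L ++ [(0, 0)]) := by
    have := sum_rotate (fun p q => edist (toZ p) (toZ q)) L.length (((0, 0) :: L).get)
    have h2 : List.ofFn (fun i : Fin L.length => ((0, 0) :: L).get i.succ) = L := by
      have : (fun i : Fin L.length => ((0, 0) :: L).get i.succ) = L.get := by
        funext i; simp
      rw [this, List.ofFn_get]
    rw [h2] at this
    exact this
  rw [e1, hL, List.append_assoc, walk_append, walk_psum, getLastD_psum]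
  have e3 : (mid l).foldl vadd (hxx l, 0) = top l := rfl
  rw [e3]
  simp only [List.cons_append, List.nil_append, walk]
  have d1 : edist (toZ (0, 0)) (toZ (hxx l, 0)) = hxx l := by
    rw [edist_toZ _ _ (by simp) (by simp)]; simp [nrm_x]
  have d2 : edist (toZ (top l)) (toZ ((top l).1, (top l).2 + vyy l)) = vyy l := by
    rw [edist_toZ _ _ (by simp) (by simp)]; simp [nrm_y]
  have d3 : edist (toZ ((top l).1, (top l).2 + vyy l)) (toZ (0, (top l).2 + vyy l)) = (top l).1 := by
    rw [edist_comm, edist_toZ _ _ (by simp) (by simp)]; simp [nrm_x]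
  have d4 : edist (toZ (0, (top l).2 + vyy l)) (toZ (0, 0)) = (top l).2 + vyy l := by
    rw [edist_comm, edist_toZ _ _ (by simp) (by simp)]; simp [nrm_y]
  rw [d1, d2, d3, d4]
  have := nrm_split l
  linarith

theorem redI_yes (x : List (ℕ × ℕ) × ℕ) : (redI x).Yes ↔ SSR x := by
  have hb : ((redI x).bound : ℝ) = x.2 + 2 + (top x.1).1 + ((top x.1).2 + vyy x.1) := by
    show ((redB x.1 x.2 : ℕ) : ℝ) = _
    unfold redB; push_cast; ring
  constructor
  · rintro ⟨σ, hσ⟩
    have h1 := len_one_le (redI x) (redPts_conv x.1) σ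
    rw [redI_len] at h1
    unfold SSR
    rw [hb] at hσ
    linarith
  · intro h
    refine ⟨1, ?_⟩
    rw [redI_len, hb]
    unfold SSR at h
    linarith

end Pool.Agent.Helper52.ETSP.Conv
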