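import Mathlib
import Pool.Agent.Helper52.ETSP.Red
import Pool.Agent.Helper52.Poly.Lists2

/-! The reduction is computable in polynomial time. -/

namespace Pool.Agent.Helper52.ETSP.Conv

open Poly

variable {α β γ : Type} [Enc α] [Enc β] [Enc γ]

theorem PF.vadd {f g : γ → ℕ × ℕ} (hf : PF f) (hg : PF g) : PF (fun c => vadd (f c) (g c)) :=
  (PF.pair (PF.add (PF.fst' hf) (PF.fst' hg)) (PF.add (PF.snd' hf) (PF.snd' hg))).congr
    (fun _ => rfl)

theorem PF.sl {f g : γ → ℕ × ℕ} (hf : PF f) (hg : PF g) : PF (fun c => sl (f c) (g c)) :=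
  (PF.lt (PF.mul (PF.snd' hf) (PF.fst' hg)) (PF.mul (PF.snd' hg) (PF.fst' hf))).congr
    (fun _ => rfl)

theorem PF.par {f g : γ → ℕ × ℕ} (hf : PF f) (hg : PF g) : PF (fun c => par (f c) (g c)) :=
  (PF.eqNat (PF.mul (PF.snd' hf) (PF.fst' hg)) (PF.mul (PF.snd' hg) (PF.fst' hf))).congr
    (fun _ => rfl)

theorem tot_foldl (m : List (ℕ × ℕ)) (u : ℕ × ℕ) :
    (m.foldl vadd u).1 + (m.foldl vadd u).2 = u.1 + u.2 + tot m := by
  rw [fst_foldl, snd_foldl, tot]; omega

/-- the sum of a list of vectors -/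
theorem PF.vsumCore : PF (fun x : List (ℕ × ℕ) × (ℕ × ℕ) => x.1.foldl Conv.vadd x.2) := by
  refine PF.foldl (init := fun x : List (ℕ × ℕ) × (ℕ × ℕ) => x.2) (lst := fun x => x.1)
    (step := fun s : (ℕ × ℕ) × (ℕ × ℕ) => Conv.vadd s.1 s.2) PF.snd PF.fst
    (PF.vadd PF.fst PF.snd) (8 * Polynomial.X + 3) (fun c l1 l2 h => ?_)
  have e : sz c = 1 + sz c.1 + sz c.2 := sz_pair c.1 c.2
  have h1 := tot_foldl l1 c.2
  have h2 : tot c.1 = tot l1 + tot l2 := by rw [h, tot_append]
  have h3 := tot_lt c.1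
  have h4 := vec_lt c.2
  have p1 : 2 ^ sz c.1 ≤ 2 ^ (sz c.1 + sz c.2) := Nat.pow_le_pow_right (by norm_num) (by omega)
  have p2 : 2 ^ sz c.2 ≤ 2 ^ (sz c.1 + sz c.2) := Nat.pow_le_pow_right (by norm_num) (by omega)
  have p3 : 2 ^ (1 + sz c.1 + sz c.2) = 2 * 2 ^ (sz c.1 + sz c.2) := by
    rw [add_assoc, pow_add, pow_one]
  have := sz_vec_le (l1.foldl Conv.vadd c.2) (sz c) (by rw [e, p3]; omega) (by rw [e, p3]; omega)
  simp only [Polynomial.eval_add, Polynomial.eval_mul, Polynomial.eval_ofNat, Polynomial.eval_X]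
  exact this

theorem PF.vsum {l : γ → List (ℕ × ℕ)} {a : γ → ℕ × ℕ} (hl : PF l) (ha : PF a) :
    PF (fun c => (l c).foldl Conv.vadd (a c)) := PF.vsumCore.comp (PF.pair hl ha)

theorem PF.ins {s : γ → List (ℕ × ℕ)} {v : γ → ℕ × ℕ} (hs : PF s) (hv : PF v) :
    PF (fun c => ins (s c) (v c)) := by
  have h1 : PF (fun c => (s c).filter (fun w => Conv.sl w (v c))) :=
    PF.filterEnv (b := fun y : γ × (ℕ × ℕ) => Conv.sl y.2 (v y.1)) hs
      (PF.sl PF.snd (hv.comp PF.fst))
  have h2 : PF (fun c => (s c).filter (fun w => Conv.par w (v c))) :=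
    PF.filterEnv (b := fun y : γ × (ℕ × ℕ) => Conv.par y.2 (v y.1)) hs
      (PF.par PF.snd (hv.comp PF.fst))
  have h3 : PF (fun c => (s c).filter (fun w => Conv.sl (v c) w)) :=
    PF.filterEnv (b := fun y : γ × (ℕ × ℕ) => Conv.sl (v y.1) y.2) hs
      (PF.sl (hv.comp PF.fst) PF.snd)
  exact PF.append h1 (PF.cons (PF.vsum h2 hv) h3)

theorem PF.srtCore : PF (fun l : List (ℕ × ℕ) => srt l) := by
  refine PF.foldl (init := fun _ : List (ℕ × ℕ) => ([] : List (ℕ × ℕ))) (lst := fun l => l)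
    (step := fun s : List (ℕ × ℕ) × (ℕ × ℕ) => Conv.ins s.1 s.2) (PF.const _) PF.id
    (PF.ins PF.fst PF.snd) (1 + Polynomial.X * (8 * Polynomial.X + 4)) (fun l l1 l2 h => ?_)
  have h1 : tot (l1.foldl Conv.ins []) = tot l1 := by
    simp only [tot]; rw [srt_fst, srt_snd]; simp
  have h2 : tot l = tot l1 + tot l2 := by rw [h, tot_append]
  have h3 := tot_lt l
  have h4 := srt_length l1 []
  have h5 := length_le_sz l
  have h6 : l.length = l1.length + l2.length := by rw [h, List.length_append]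
  have h7 : (l1.foldl Conv.ins []).length ≤ sz l := by simp at h4; omega
  have h8 := sz_veclist_le (l1.foldl Conv.ins []) (sz l) (fun w hw => by
    have := mem_le_tot hw; omega)
  have h9 := Nat.mul_le_mul_right (8 * sz l + 4) h7
  simp only [Polynomial.eval_add, Polynomial.eval_mul, Polynomial.eval_ofNat, Polynomial.eval_X,
    Polynomial.eval_one]
  exact le_trans h8 (by omega)

theorem PF.mid {l : γ → List (ℕ × ℕ)} (hl : PF l) : PF (fun c => mid (l c)) := by
  have hb : PF (fun v : ℕ × ℕ => !decide (v.1 = 0) && !decide (v.2 = 0)) :=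
    PF.and (PF.eqNat PF.fst (PF.const 0)).not (PF.eqNat PF.snd (PF.const 0)).not
  exact (PF.srtCore.comp (PF.filter hl hb)).congr (fun _ => rfl)

theorem PF.hxxCore : PF (fun l : List (ℕ × ℕ) => hxx l) := by
  refine PF.foldl (init := fun _ : List (ℕ × ℕ) => 1) (lst := fun l => l)
    (step := fun s : ℕ × (ℕ × ℕ) => if s.2.2 = 0 then s.1 + s.2.1 else s.1) (PF.const _) PF.id
    (PF.ite (PF.eqNat (PF.snd' PF.snd) (PF.const 0)) (PF.add PF.fst (PF.fst' PF.snd)) PF.fst)
    (4 * Polynomial.X + 5) (fun l l1 l2 h => ?_)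
  have h1 := hxx_eq l1 1
  have hle : ∀ l1 : List (ℕ × ℕ),
      ((l1.filter (fun v => decide (v.2 = 0))).map Prod.fst).sum ≤ tot l1 := by
    intro l1
    induction l1 with
    | nil => simp
    | cons a t ih =>
      rw [List.filter_cons, tot_cons]
      by_cases ha : a.2 = 0
      · simp [ha] at ih ⊢; omega
      · simp [ha] at ih ⊢; omega
  have h2 : tot l = tot l1 + tot l2 := by rw [h, tot_append]
  have h3 := tot_lt l
  have h4 := hle l1
  have h5 : (l1.foldl (fun n (v : ℕ × ℕ) => if v.2 = 0 then n + v.1 else n) 1).size ≤ sz l + 1 := by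
    rw [Nat.size_le, h1, pow_succ]; omega
  have h6 := sz_nat_le (l1.foldl (fun n (v : ℕ × ℕ) => if v.2 = 0 then n + v.1 else n) 1)
  simp only [Polynomial.eval_add, Polynomial.eval_mul, Polynomial.eval_ofNat, Polynomial.eval_X]
  exact le_trans h6 (by omega)

theorem PF.vyyCore : PF (fun l : List (ℕ × ℕ) => vyy l) := by
  refine PF.foldl (init := fun _ : List (ℕ × ℕ) => 1) (lst := fun l => l)
    (step := fun s : ℕ × (ℕ × ℕ) => if s.2.1 = 0 then s.1 + s.2.2 else s.1) (PF.const _) PF.id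
    (PF.ite (PF.eqNat (PF.fst' PF.snd) (PF.const 0)) (PF.add PF.fst (PF.snd' PF.snd)) PF.fst)
    (4 * Polynomial.X + 5) (fun l l1 l2 h => ?_)
  have h1 := vyy_eq l1 1
  have hle : ∀ l1 : List (ℕ × ℕ),
      ((l1.filter (fun v => decide (v.1 = 0))).map Prod.snd).sum ≤ tot l1 := by
    intro l1
    induction l1 with
    | nil => simp
    | cons a t ih =>
      rw [List.filter_cons, tot_cons]
      by_cases ha : a.1 = 0
      · simp [ha] at ih ⊢; omega
      · simp [ha] at ih ⊢; omega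
  have h2 : tot l = tot l1 + tot l2 := by rw [h, tot_append]
  have h3 := tot_lt l
  have h4 := hle l1
  have h5 : (l1.foldl (fun n (v : ℕ × ℕ) => if v.1 = 0 then n + v.2 else n) 1).size ≤ sz l + 1 := by
    rw [Nat.size_le, h1, pow_succ]; omega
  have h6 := sz_nat_le (l1.foldl (fun n (v : ℕ × ℕ) => if v.1 = 0 then n + v.2 else n) 1)
  simp only [Polynomial.eval_add, Polynomial.eval_mul, Polynomial.eval_ofNat, Polynomial.eval_X]
  exact le_trans h6 (by omega)

theorem PF.hxx {l : γ → List (ℕ × ℕ)} (hl : PF l) : PF (fun c => hxx (l c)) := PF.hxxCore.comp hl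
theorem PF.vyy {l : γ → List (ℕ × ℕ)} (hl : PF l) : PF (fun c => vyy (l c)) := PF.vyyCore.comp hl

theorem PF.top {l : γ → List (ℕ × ℕ)} (hl : PF l) : PF (fun c => top (l c)) :=
  PF.vsum (PF.mid hl) (PF.pair (PF.hxx hl) (PF.const 0))

/-! Partial sums as a fold. -/

def pstep (s : ((ℕ × ℕ) × List (ℕ × ℕ)) × (ℕ × ℕ)) : (ℕ × ℕ) × List (ℕ × ℕ) :=
  (vadd s.1.1 s.2, vadd s.1.1 s.2 :: s.1.2)

theorem psum_eq : ∀ (s : List (ℕ × ℕ)) (a : ℕ × ℕ) (acc : List (ℕ × ℕ)),
    (s.foldl (fun u x => pstep (u, x)) (a, a :: acc)).2.reverse = acc.reverse ++ psum a s := by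
  intro s
  induction s with
  | nil => intro a acc; simp [psum]
  | cons v s ih =>
    intro a acc
    have := ih (vadd a v) (a :: acc)
    rw [List.foldl_cons]
    simp only [pstep] at this ⊢
    rw [this, psum]
    simp

theorem pstep_inv (s : List (ℕ × ℕ)) : ∀ (a : ℕ × ℕ) (acc : List (ℕ × ℕ)) (N : ℕ),
    (∀ w ∈ acc, w.1 + w.2 ≤ N) → a.1 + a.2 + tot s ≤ N →
    (s.foldl (fun u x => pstep (u, x)) (a, acc)).1.1 +
      (s.foldl (fun u x => pstep (u, x)) (a, acc)).1.2 = a.1 + a.2 + tot s ∧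
    (∀ w ∈ (s.foldl (fun u x => pstep (u, x)) (a, acc)).2, w.1 + w.2 ≤ N) ∧
    (s.foldl (fun u x => pstep (u, x)) (a, acc)).2.length = acc.length + s.length := by
  induction s with
  | nil => intro a acc N h1 h2; exact ⟨by simp [tot], h1, by simp⟩
  | cons v s ih =>
    intro a acc N h1 h2
    rw [tot_cons] at h2 ⊢
    have := ih (vadd a v) (vadd a v :: acc) N (fun w hw => by
      rcases List.mem_cons.1 hw with h | h
      · rw [h]; simp only [vadd]; omega
      · exact h1 w h) (by simp only [vadd]; omega)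
    rw [List.foldl_cons]
    simp only [pstep, vadd, List.length_cons] at this ⊢
    refine ⟨?_, this.2.1, ?_⟩
    · rw [this.1]; omega
    · rw [this.2.2]; omega

theorem PF.psumCore : PF (fun x : List (ℕ × ℕ) × (ℕ × ℕ) => psum x.2 x.1) := by
  have hstep : PF pstep :=
    (PF.pair (PF.vadd (PF.fst' PF.fst) PF.snd)
      (PF.cons (PF.vadd (PF.fst' PF.fst) PF.snd) (PF.snd' PF.fst))).congr (fun _ => rfl)
  have key := PF.foldl (init := fun x : List (ℕ × ℕ) × (ℕ × ℕ) => (x.2, [x.2]))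
    (lst := fun x => x.1) (step := pstep)
    (PF.pair PF.snd (PF.cons PF.snd (PF.const []))) PF.fst hstep
    (1 + (8 * Polynomial.X + 3) + (1 + (Polynomial.X + 1) * (8 * Polynomial.X + 4)))
    (fun c l1 l2 h => by
      have e : sz c = 1 + sz c.1 + sz c.2 := sz_pair c.1 c.2
      have h2 : tot c.1 = tot l1 + tot l2 := by rw [h, tot_append]
      have h3 := tot_lt c.1
      have h4 := vec_lt c.2
      have p1 : 2 ^ sz c.1 ≤ 2 ^ (sz c.1 + sz c.2) := Nat.pow_le_pow_right (by norm_num) (by omega)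
      have p2 : 2 ^ sz c.2 ≤ 2 ^ (sz c.1 + sz c.2) := Nat.pow_le_pow_right (by norm_num) (by omega)
      have p3 : 2 ^ (1 + sz c.1 + sz c.2) = 2 * 2 ^ (sz c.1 + sz c.2) := by
        rw [add_assoc, pow_add, pow_one]
      have hN : c.2.1 + c.2.2 + tot l1 ≤ 2 ^ sz c - 1 := by rw [e, p3]; omega
      have hinv := pstep_inv l1 c.2 [c.2] (2 ^ sz c - 1) (fun w hw => by
        rw [List.mem_singleton] at hw; subst hw; omega) hN
      obtain ⟨i1, i2, i3⟩ := hinv
      have hpos : 0 < 2 ^ sz c := by positivity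
      set st := l1.foldl (fun u x => pstep (u, x)) (c.2, [c.2]) with hst
      have e2 : sz st = 1 + sz st.1 + sz st.2 := sz_pair st.1 st.2
      have f1 := sz_vec_le st.1 (sz c) (by omega) (by omega)
      have f2 := sz_veclist_le st.2 (sz c) (fun w hw => by have := i2 w hw; omega)
      have f3 := length_le_sz c.1
      have f4 : c.1.length = l1.length + l2.length := by rw [h, List.length_append]
      have f5 : st.2.length ≤ sz c + 1 := by
        rw [i3]; simp only [List.length_singleton]; omega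
      have f6 := Nat.mul_le_mul_right (8 * sz c + 4) f5
      simp only [Polynomial.eval_add, Polynomial.eval_mul, Polynomial.eval_ofNat,
        Polynomial.eval_X, Polynomial.eval_one]
      omega)
  refine (PF.reverse (PF.snd' key)).congr (fun c => ?_)
  congr 1
  rw [psum_eq]; simp

theorem PF.psum {l : γ → List (ℕ × ℕ)} {a : γ → ℕ × ℕ} (hl : PF l) (ha : PF a) :
    PF (fun c => psum (a c) (l c)) := PF.psumCore.comp (PF.pair hl ha)

theorem PF.redPts {l : γ → List (ℕ × ℕ)} (hl : PF l) : PF (fun c => redPts (l c)) := by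
  have hY : PF (fun c => (Conv.top (l c)).2 + Conv.vyy (l c)) :=
    PF.add (PF.snd' (PF.top hl)) (PF.vyy hl)
  exact PF.cons (PF.const (0, 0)) (PF.append (PF.psum (PF.mid hl) (PF.pair (PF.hxx hl) (PF.const 0)))
    (PF.cons (PF.pair (PF.fst' (PF.top hl)) hY) (PF.cons (PF.pair (PF.const 0) hY) (PF.const []))))

theorem PF.redB {l : γ → List (ℕ × ℕ)} {B : γ → ℕ} (hl : PF l) (hB : PF B) :
    PF (fun c => redB (l c) (B c)) :=
  PF.add (PF.add (PF.add hB (PF.const 2)) (PF.fst' (PF.top hl)))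
    (PF.add (PF.snd' (PF.top hl)) (PF.vyy hl))

theorem PF.toZ {f : γ → ℕ × ℕ} (hf : PF f) : PF (fun c => toZ (f c)) := by
  have h : PF (fun c => ((false, (f c).1), (false, (f c).2))) :=
    PF.pair (PF.pair (PF.const false) (PF.fst' hf)) (PF.pair (PF.const false) (PF.snd' hf))
  refine h.congr (fun c => ?_)
  show enc (((f c).1 : ℤ), ((f c).2 : ℤ)) = _
  have e : ∀ n : ℕ, enc (n : ℤ) = enc (false, n) := by
    intro n
    show enc (decide ((n : ℤ) < 0), (n : ℤ).natAbs) = _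
    have h1 : decide ((n : ℤ) < 0) = false := by
      rw [decide_eq_false_iff_not]; omega
    rw [h1, Int.natAbs_natCast]
  show T.node (enc ((f c).1 : ℤ)) (enc ((f c).2 : ℤ)) = _
  rw [e, e]
  rfl

theorem PF.redI : PF (fun x : List (ℕ × ℕ) × ℕ => redI x) := by
  have h1 : PF (fun x : List (ℕ × ℕ) × ℕ => (Conv.redPts x.1).map (fun p => Conv.toZ p)) :=
    PF.map (h := fun y : (List (ℕ × ℕ) × ℕ) × (ℕ × ℕ) => Conv.toZ y.2) (PF.redPts PF.fst)
      (PF.toZ PF.snd)
  refine (PF.pair h1 (PF.redB PF.fst PF.snd)).congr (fun x => ?_)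
  show enc (List.ofFn (fun i => Conv.toZ ((Conv.redPts x.1).get i)), Conv.redB x.1 x.2) = _
  congr 2
  have : (fun i => Conv.toZ ((Conv.redPts x.1).get i)) =
      Conv.toZ ∘ (Conv.redPts x.1).get := rfl
  rw [this, ← List.map_ofFn, List.ofFn_get]

end Pool.Agent.Helper52.ETSP.Conv
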