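import Mathlib
import Pool.Agent.Helper52.ETSP.RedPF
import Pool.Agent.Helper52.Poly.Classes

/-! From lists of points to the differences of consecutive points. -/

namespace Pool.Agent.Helper52.ETSP.Conv

open Poly

variable {α β γ : Type} [Enc α] [Enc β] [Enc γ]

/-- pairs of consecutive elements -/
def zipN {A : Type} : A → List A → List (A × A)
  | _, [] => []
  | p, q :: l => (p, q) :: zipN q l

def zstep (s : (α × List (α × α)) × α) : α × List (α × α) := (s.2, (s.1.1, s.2) :: s.1.2)

theorem zstep_foldl : ∀ (l : List α) (p : α) (acc : List (α × α)),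
    (l.foldl (fun u x => zstep (u, x)) (p, acc)).2.reverse = acc.reverse ++ zipN p l := by
  intro l
  induction l with
  | nil => intro p acc; simp [zipN]
  | cons a l ih =>
    intro p acc
    have := ih a ((p, a) :: acc)
    rw [List.foldl_cons]
    simp only [zstep] at this ⊢
    rw [this, zipN]; simp

theorem PF.zipNCore : PF (fun x : α × List α => zipN x.1 x.2) := by
  have hstep : PF (zstep (α := α)) :=
    (PF.pair PF.snd (PF.cons (PF.pair (PF.fst' PF.fst) PF.snd) (PF.snd' PF.fst))).congr
      (fun _ => rfl)
  have key := PF.foldlGrow (init := fun x : α × List α => (x.1, ([] : List (α × α))))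
    (lst := fun x => x.2) (step := zstep) (PF.pair PF.fst (PF.const [])) PF.snd hstep
    (3 + 2 * Polynomial.X) (fun c u x hx => by
      have h1 := sz_mem_le hx
      have e2 : sz c = 1 + sz c.1 + sz c.2 := sz_pair c.1 c.2
      have e3 : sz u = 1 + sz u.1 + sz u.2 := sz_pair u.1 u.2
      simp only [zstep]
      rw [sz_pair, sz_cons, sz_pair]
      simp only [Polynomial.eval_add, Polynomial.eval_mul, Polynomial.eval_ofNat,
        Polynomial.eval_X]
      omega)
  refine (PF.reverse (PF.snd' key)).congr (fun c => ?_)
  congr 1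
  rw [zstep_foldl]; simp

theorem PF.zipN {p : γ → α} {l : γ → List α} (hp : PF p) (hl : PF l) :
    PF (fun c => zipN (p c) (l c)) := PF.zipNCore.comp (PF.pair hp hl)

theorem walk_zipN {A : Type} (F : A → A → ℝ) : ∀ (l : List A) (p : A),
    walk F p l = ((Conv.zipN p l).map (fun y => F y.1 y.2)).sum := by
  intro l
  induction l with
  | nil => intro p; simp [walk, Conv.zipN]
  | cons a l ih => intro p; rw [walk, Conv.zipN, List.map_cons, List.sum_cons, ih]

/-- absolute coordinate differences -/
def dvec (p q : ℤ × ℤ) : ℕ × ℕ := ((p.1 - q.1).natAbs, (p.2 - q.2).natAbs)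

theorem nrm_dvec (p q : ℤ × ℤ) : nrm (dvec p q) = edist p q := by
  unfold nrm dvec edist
  congr 1
  simp only
  have h : ∀ z : ℤ, ((z.natAbs : ℕ) : ℝ) ^ 2 = (z : ℝ) ^ 2 := by
    intro z
    rw [Nat.cast_natAbs]
    push_cast
    rw [sq_abs]
  rw [h, h]

theorem PF.natAbsSub {f g : γ → ℤ} (hf : PF f) (hg : PF g) :
    PF (fun c => (f c - g c).natAbs) := by
  have hf' : PF (fun c => (decide (f c < 0), (f c).natAbs)) := hf.congr (fun _ => rfl)
  have hg' : PF (fun c => (decide (g c < 0), (g c).natAbs)) := hg.congr (fun _ => rfl)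
  have h := PF.cond (PF.xor (PF.fst' hf') (PF.fst' hg'))
    (PF.add (PF.snd' hf') (PF.snd' hg'))
    (PF.add (PF.sub (PF.snd' hf') (PF.snd' hg')) (PF.sub (PF.snd' hg') (PF.snd' hf')))
  refine h.congr (fun c => ?_)
  congr 1
  by_cases h1 : f c < 0
  · by_cases h2 : g c < 0
    · simp only [h1, h2, decide_true, Bool.xor_self, cond_false]; omega
    · simp only [h1, h2, decide_true, decide_false, Bool.xor_false, cond_true]; omega
  · by_cases h2 : g c < 0
    · simp only [h1, h2, decide_true, decide_false, Bool.false_xor, cond_true]; omega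
    · simp only [h1, h2, decide_false, Bool.xor_self, cond_false]; omega

theorem PF.dvec {f g : γ → ℤ × ℤ} (hf : PF f) (hg : PF g) : PF (fun c => dvec (f c) (g c)) :=
  PF.pair (PF.natAbsSub (PF.fst' hf) (PF.fst' hg)) (PF.natAbsSub (PF.snd' hf) (PF.snd' hg))

/-- the absolute differences of consecutive points, closing edge included -/
def edges (l : List (ℤ × ℤ)) : List (ℕ × ℕ) :=
  (zipN (l.headD (0, 0)) (l.tail ++ l.take 1)).map (fun y => dvec y.1 y.2)

theorem PF.edges {l : γ → List (ℤ × ℤ)} (hl : PF l) : PF (fun c => edges (l c)) :=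
  PF.map (h := fun y : γ × ((ℤ × ℤ) × (ℤ × ℤ)) => Conv.dvec y.2.1 y.2.2)
    (PF.zipN (PF.headD hl (PF.const (0, 0))) (PF.append (PF.tail hl) (PF.take (PF.const 1) hl)))
    (PF.dvec (PF.fst' PF.snd) (PF.snd' PF.snd))

theorem edges_sum (I : Instance) (σ : Equiv.Perm (Fin I.n)) :
    ((edges (List.ofFn (fun i => I.pt (σ i)))).map nrm).sum = I.len σ := by
  obtain ⟨n, pt, inj, B, Bp⟩ := I
  have h1 : ∀ l : List (ℤ × ℤ), ((edges l).map nrm).sum =
      walk edist (l.headD (0, 0)) (l.tail ++ l.take 1) := by
    intro l
    rw [walk_zipN, edges, List.map_map]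
    congr 1
    apply List.map_congr_left
    intro y _
    exact nrm_dvec _ _
  rw [h1]
  cases n with
  | zero => simp [walk, Instance.len]
  | succ m =>
    have := sum_rotate edist m (fun i => pt (σ i))
    unfold Instance.len
    simp only at this ⊢
    rw [this, List.ofFn_succ]
    simp

theorem edges_sum_one (I : Instance) : ((edges (List.ofFn I.pt)).map nrm).sum = I.len 1 :=
  edges_sum I 1

/-- the list of points and the bound of an instance -/
def unI (I : Instance) : List (ℤ × ℤ) × ℕ := (List.ofFn I.pt, I.bound)

theorem PF.unI : PF unI := PF.id.congr (fun _ => rfl)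

theorem PF.cval : PF (fun I : CInstance => I.1) := PF.id.congr (fun _ => rfl)

def toSSR (I : Instance) : List (ℕ × ℕ) × ℕ := (edges (List.ofFn I.pt), I.bound)

theorem PF.toSSR : PF toSSR :=
  PF.pair (PF.edges (PF.fst' PF.unI)) (PF.snd' PF.unI)

theorem toSSR_iff (I : CInstance) : I.1.Yes ↔ SSR (toSSR I.1) := by
  unfold SSR toSSR
  simp only
  rw [edges_sum_one]
  constructor
  · rintro ⟨σ, h⟩
    exact le_trans (len_one_le I.1 I.2 σ) h
  · intro h
    exact ⟨1, h⟩

/-! ### Guessing a tour -/

/-- the state while reading a certificate -/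
abbrev GS (α : Type) : Type := ((Bool × Bool) × List Bool) × (List α × List α)

def rot1 (l : List α) : List α := l.tail ++ l.take 1

def gstep (s : GS α × Bool) : GS α :=
  bif s.1.1.1.1 then ((s.1.1.1, s.2 :: s.1.1.2), s.1.2)
  else bif s.1.1.1.2 then
    (((false, false), s.1.1.2),
      bif s.2 then (s.1.2.2.take 1 ++ s.1.2.1, s.1.2.2.tail)
      else (s.1.2.1, rot1 s.1.2.2))
  else ((bif s.2 then (false, true) else (true, false), s.1.1.2), s.1.2)

theorem PF.gstep : PF (gstep (α := α)) := by
  have a1 : PF (fun s : GS α × Bool => s.1.1.1) := PF.fst' (PF.fst' PF.fst)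
  have a2 : PF (fun s : GS α × Bool => s.1.1.2) := PF.snd' (PF.fst' PF.fst)
  have a3 : PF (fun s : GS α × Bool => s.1.2) := PF.snd' PF.fst
  have a4 := PF.fst' a3
  have a5 := PF.snd' a3
  have b : PF (fun s : GS α × Bool => s.2) := PF.snd
  exact PF.cond (PF.fst' a1) (PF.pair (PF.pair a1 (PF.cons b a2)) a3)
    (PF.cond (PF.snd' a1)
      (PF.pair (PF.pair (PF.const (false, false)) a2)
        (PF.cond b (PF.pair (PF.append (PF.take (PF.const 1) a5) a4) (PF.tail a5))
          (PF.pair a4 (PF.append (PF.tail a5) (PF.take (PF.const 1) a5)))))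
      (PF.pair (PF.pair (PF.cond b (PF.const (false, true)) (PF.const (true, false))) a2) a3))

theorem sz_append (l m : List α) : sz (l ++ m) + 1 = sz l + sz m := by
  induction l with
  | nil => rw [List.nil_append, sz_nil]; omega
  | cons a l ih => rw [List.cons_append, sz_cons, sz_cons]; omega

theorem sz_tail_take (l : List α) : sz l.tail + sz (l.take 1) = sz l + 1 := by
  cases l with
  | nil => simp [sz_nil]
  | cons a l => simp [sz_cons, sz_nil]; omega

theorem sz_gstep (u : GS α) (x : Bool) : sz (gstep (u, x)) ≤ sz u + 20 := by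
  obtain ⟨⟨⟨a, b⟩, acc⟩, ⟨ch, re⟩⟩ := u
  have ha := sz_bool a
  have hb := sz_bool b
  have hx := sz_bool x
  have hp := sz_pos a
  have hq := sz_pos b
  have ht := sz_bool true
  have hf := sz_bool false
  have h1 := sz_tail_take re
  have h2 := sz_append re.tail (re.take 1)
  have h3 := sz_append (re.take 1) ch
  unfold gstep rot1
  cases a <;> cases b <;> cases x <;> simp only [cond_true, cond_false, sz_pair, sz_cons] at * <;>
    omega

def gini (l : List α) : GS α := (((false, false), []), ([], l))

/-- read the certificate -/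
def guess (x : List α × List Bool) : GS α := x.2.foldl (fun u b => gstep (u, b)) (gini x.1)

theorem PF.guess : PF (guess (α := α)) :=
  PF.foldlGrow (init := fun x : List α × List Bool => gini x.1) (lst := fun x => x.2)
    (step := Conv.gstep) (PF.pair (PF.const ((false, false), [])) (PF.pair (PF.const []) PF.fst))
    PF.snd PF.gstep (Polynomial.C 20) (fun c u x _ => by
      rw [Polynomial.eval_C]; exact sz_gstep u x)

theorem gstep_perm (u : GS α) (x : Bool) :
    ((gstep (u, x)).2.1 ++ (gstep (u, x)).2.2).Perm (u.2.1 ++ u.2.2) := by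
  obtain ⟨⟨⟨a, b⟩, acc⟩, ⟨ch, re⟩⟩ := u
  unfold gstep rot1
  cases a
  · cases b
    · simp
    · cases x
      · simp only [cond_true, cond_false]
        refine List.Perm.append_left ch ?_
        cases re with
        | nil => simp
        | cons a t => simpa using (List.perm_append_singleton a t)
      · simp only [cond_true, cond_false]
        cases re with
        | nil => simp
        | cons a t => simpa using (List.perm_middle (a := a) (l₁ := ch) (l₂ := t)).symm
  · simp

theorem guess_perm (l : List α) (w : List Bool) :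
    ((guess (l, w)).2.1 ++ (guess (l, w)).2.2).Perm l := by
  have : ∀ (w : List Bool) (u : GS α),
      ((w.foldl (fun u b => gstep (u, b)) u).2.1 ++
        (w.foldl (fun u b => gstep (u, b)) u).2.2).Perm (u.2.1 ++ u.2.2) := by
    intro w
    induction w with
    | nil => intro u; simp
    | cons b w ih => intro u; exact (ih _).trans (gstep_perm u b)
  exact this w (gini l)

/-- a reading state which expects a control bit -/
def rd (acc : List Bool) (ch re : List α) : GS α := (((false, false), acc), (ch, re))

theorem read_rot (acc : List Bool) (ch : List α) : ∀ (a b : List α),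
    ∃ w1 : List Bool, w1.length = 2 * a.length ∧ ∀ w : List Bool,
    (w1 ++ w).foldl (fun u b => gstep (u, b)) (rd acc ch (a ++ b)) =
      w.foldl (fun u b => gstep (u, b)) (rd acc ch (b ++ a)) := by
  intro a
  induction a with
  | nil => intro b; exact ⟨[], rfl, fun w => by simp⟩
  | cons x a ih =>
    intro b
    obtain ⟨w1, h1, h2⟩ := ih (b ++ [x])
    refine ⟨true :: false :: w1, by simp [h1]; ring, fun w => ?_⟩
    have e : gstep (gstep (rd acc ch (x :: a ++ b), true), false) =
        rd acc ch (a ++ (b ++ [x])) := by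
      simp [gstep, rd, rot1]
    show (w1 ++ w).foldl (fun u b => gstep (u, b))
      (gstep (gstep (rd acc ch (x :: a ++ b), true), false)) = _
    rw [e, h2]
    simp

theorem read_perm (acc : List Bool) : ∀ (t re : List α) (ch : List α), t.Perm re →
    ∃ w1 : List Bool, w1.length ≤ 2 * (re.length * (re.length + 1)) ∧ ∀ w : List Bool,
    (w1 ++ w).foldl (fun u b => gstep (u, b)) (rd acc ch re) =
      w.foldl (fun u b => gstep (u, b)) (rd acc (t.reverse ++ ch) []) := by
  intro t
  induction t with
  | nil =>
    intro re ch h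
    have : re = [] := h.symm.eq_nil
    subst this
    exact ⟨[], by simp, by simp⟩
  | cons x t ih =>
    intro re ch h
    have hx : x ∈ re := h.subset List.mem_cons_self
    obtain ⟨a, b, rfl⟩ := List.append_of_mem hx
    have hp : t.Perm (b ++ a) := by
      have h1 : (x :: t).Perm (x :: (b ++ a)) := by
        refine h.trans ?_
        refine List.perm_middle.trans ?_
        exact List.Perm.cons x List.perm_append_comm
      exact (List.perm_cons x).1 h1
    obtain ⟨w2, h21, h22⟩ := ih (b ++ a) (x :: ch) hp
    obtain ⟨w1, h11, h12⟩ := read_rot acc ch a (x :: b)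
    refine ⟨w1 ++ (true :: true :: w2), ?_, fun w => ?_⟩
    · simp only [List.length_append, List.length_cons] at *
      rw [h11]
      nlinarith
    · rw [List.append_assoc, h12]
      have e : gstep (gstep (rd acc ch (x :: b ++ a), true), true) =
          rd acc (x :: ch) (b ++ a) := by
        simp [gstep, rd]
      show (w2 ++ w).foldl (fun u b => gstep (u, b))
        (gstep (gstep (rd acc ch (x :: b ++ a), true), true)) = _
      rw [e, h22]
      simp

theorem read_end (acc : List Bool) (ch re : List α) (w : List Bool) :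
    (false :: w).foldl (fun u b => gstep (u, b)) (rd acc ch re) =
      (((true, false), w.reverse ++ acc), (ch, re)) := by
  rw [List.foldl_cons]
  have e : gstep (rd acc ch re, false) = (((true, false), acc), (ch, re)) := by
    simp [gstep, rd]
  rw [e]
  have : ∀ (w acc : List Bool), w.foldl (fun u b => gstep (u, b))
      (((true, false), acc), (ch, re)) = (((true, false), w.reverse ++ acc), (ch, re)) := by
    intro w
    induction w with
    | nil => intro acc; simp
    | cons b w ih =>
      intro acc
      have e : gstep ((((true, false), acc), (ch, re)), b) =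
          (((true, false), b :: acc), (ch, re)) := by simp [gstep]
      rw [List.foldl_cons, e, ih]; simp
  exact this w acc

theorem guess_all (l t : List α) (h : t.Perm l) :
    ∃ w1 : List Bool, w1.length ≤ 2 * (l.length * (l.length + 1)) + 1 ∧
      ∀ w2 : List Bool, (guess (l, w1 ++ w2)).1.2.reverse = w2 ∧
        (guess (l, w1 ++ w2)).2.1 ++ (guess (l, w1 ++ w2)).2.2 = t := by
  obtain ⟨w1, h1, h2⟩ := read_perm [] t.reverse l [] ((List.reverse_perm t).trans h)
  refine ⟨w1 ++ [false], by rw [List.length_append, List.length_singleton]; omega, fun w2 => ?_⟩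
  have e : guess (l, w1 ++ [false] ++ w2) = (((true, false), w2.reverse), (t, [])) := by
    show (w1 ++ [false] ++ w2).foldl (fun u b => gstep (u, b)) (rd [] [] l) = _
    rw [List.append_assoc, h2]
    show (false :: w2).foldl (fun u b => gstep (u, b)) _ = _
    rw [read_end]
    simp
  rw [e]
  simp

theorem exists_perm {n : ℕ} (pt : Fin n → ℤ × ℤ) (hpt : Function.Injective pt)
    (t : List (ℤ × ℤ)) (h : t.Perm (List.ofFn pt)) :
    ∃ σ : Equiv.Perm (Fin n), t = List.ofFn (fun i => pt (σ i)) := by
  have hlen : t.length = n := by rw [h.length_eq, List.length_ofFn]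
  have hnd : t.Nodup := h.nodup_iff.2 (List.nodup_ofFn.2 hpt)
  have h1 : ∀ i : Fin n, ∃ j, pt j = t[(i : ℕ)]'(by rw [hlen]; exact i.2) := by
    intro i
    have : t[(i : ℕ)]'(by rw [hlen]; exact i.2) ∈ List.ofFn pt :=
      h.subset (List.getElem_mem _)
    exact (List.mem_ofFn' _ _).1 this
  choose j hj using h1
  have hinj : Function.Injective j := by
    intro a b hab
    have h2 : t[(a : ℕ)]'(by rw [hlen]; exact a.2) = t[(b : ℕ)]'(by rw [hlen]; exact b.2) := by
      rw [← hj a, ← hj b, hab]
    exact Fin.ext ((hnd.getElem_inj_iff).1 h2)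
  refine ⟨Equiv.ofBijective j (Finite.injective_iff_bijective.1 hinj), ?_⟩
  apply List.ext_getElem
  · rw [hlen, List.length_ofFn]
  · intro i h1 h2
    rw [List.getElem_ofFn]
    simp only [Equiv.ofBijective_apply]
    rw [hj]

end Pool.Agent.Helper52.ETSP.Conv
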