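import Mathlib

namespace Pool.Agent.Helper52.ETSP.Gen

/-- Exact value of the second difference of `u ↦ √(u² + h²)` (cleared of denominators). -/
theorem le_of_sq_le_sq {a b : ℝ} (h : a ^ 2 ≤ b ^ 2) (hb : 0 ≤ b) : a ≤ b :=
  le_trans (le_abs_self a) (abs_le_of_sq_le_sq h hb)

theorem sd_identity (u1 u2 u3 h g1 g2 g3 : ℝ) (e1 : g1 ^ 2 = u1 ^ 2 + h ^ 2)
    (e2 : g2 ^ 2 = u2 ^ 2 + h ^ 2) (e3 : g3 ^ 2 = u3 ^ 2 + h ^ 2) :
    (g3 * (u2 - u1) - g2 * (u3 - u1) + g1 * (u3 - u2)) *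
      ((g3 * (u2 - u1) + g1 * (u3 - u2) + g2 * (u3 - u1)) * (g1 * g3 + u1 * u3 + h ^ 2)) =
    2 * (u2 - u1) * (u3 - u2) * h ^ 2 * (u3 - u1) ^ 2 := by
  have k1 : (g3 * (u2 - u1) - g2 * (u3 - u1) + g1 * (u3 - u2)) *
      (g3 * (u2 - u1) + g1 * (u3 - u2) + g2 * (u3 - u1)) =
      2 * (u2 - u1) * (u3 - u2) * (g1 * g3 - u1 * u3 - h ^ 2) := by
    linear_combination (u3 - u2) ^ 2 * e1 - (u3 - u1) ^ 2 * e2 + (u2 - u1) ^ 2 * e3
  have k2 : (g1 * g3 - u1 * u3 - h ^ 2) * (g1 * g3 + u1 * u3 + h ^ 2) =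
      h ^ 2 * (u3 - u1) ^ 2 := by
    linear_combination g3 ^ 2 * e1 + (u1 ^ 2 + h ^ 2) * e3
  calc _ = ((g3 * (u2 - u1) - g2 * (u3 - u1) + g1 * (u3 - u2)) *
      (g3 * (u2 - u1) + g1 * (u3 - u2) + g2 * (u3 - u1))) * (g1 * g3 + u1 * u3 + h ^ 2) := by ring
    _ = _ := by rw [k1]; linear_combination 2 * (u2 - u1) * (u3 - u2) * k2

theorem sd_bounds (u1 u2 u3 h R : ℝ) (h12 : u1 < u2) (h23 : u2 < u3) (hh : 0 < |h|)
    (b1 : |u1| ≤ R) (b2 : |u2| ≤ R) (b3 : |u3| ≤ R) (bh : |h| ≤ R) :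
    (u2 - u1) * (u3 - u2) * (u3 - u1) * h ^ 2 ≤
      6 * R ^ 3 * (Real.sqrt (u3 ^ 2 + h ^ 2) * (u2 - u1) - Real.sqrt (u2 ^ 2 + h ^ 2) * (u3 - u1)
        + Real.sqrt (u1 ^ 2 + h ^ 2) * (u3 - u2)) ∧
    2 * |h| * (Real.sqrt (u3 ^ 2 + h ^ 2) * (u2 - u1) - Real.sqrt (u2 ^ 2 + h ^ 2) * (u3 - u1)
        + Real.sqrt (u1 ^ 2 + h ^ 2) * (u3 - u2)) ≤ (u2 - u1) * (u3 - u2) * (u3 - u1) := by
  have hR : 0 < R := lt_of_lt_of_le hh bh
  have hh2 : |h| ^ 2 = h ^ 2 := sq_abs h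
  have s1 := sq_abs u1
  have s2 := sq_abs u2
  have s3 := sq_abs u3
  set g1 := Real.sqrt (u1 ^ 2 + h ^ 2) with hg1
  set g2 := Real.sqrt (u2 ^ 2 + h ^ 2) with hg2
  set g3 := Real.sqrt (u3 ^ 2 + h ^ 2) with hg3
  have p1 : 0 ≤ g1 := Real.sqrt_nonneg _
  have p2 : 0 ≤ g2 := Real.sqrt_nonneg _
  have p3 : 0 ≤ g3 := Real.sqrt_nonneg _
  have e1 : g1 ^ 2 = u1 ^ 2 + h ^ 2 := Real.sq_sqrt (by positivity)
  have e2 : g2 ^ 2 = u2 ^ 2 + h ^ 2 := Real.sq_sqrt (by positivity)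
  have e3 : g3 ^ 2 = u3 ^ 2 + h ^ 2 := Real.sq_sqrt (by positivity)
  have l1 : |h| ≤ g1 := by apply Real.le_sqrt_of_sq_le; linarith [sq_nonneg u1]
  have l2 : |h| ≤ g2 := by apply Real.le_sqrt_of_sq_le; linarith [sq_nonneg u2]
  have l3 : |h| ≤ g3 := by apply Real.le_sqrt_of_sq_le; linarith [sq_nonneg u3]
  have a1 : |u1| ^ 2 ≤ R ^ 2 := pow_le_pow_left₀ (abs_nonneg _) b1 2
  have a2 : |u2| ^ 2 ≤ R ^ 2 := pow_le_pow_left₀ (abs_nonneg _) b2 2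
  have a3 : |u3| ^ 2 ≤ R ^ 2 := pow_le_pow_left₀ (abs_nonneg _) b3 2
  have ah : |h| ^ 2 ≤ R ^ 2 := pow_le_pow_left₀ (abs_nonneg _) bh 2
  have hRR : 0 < R ^ 2 := by positivity
  have hRq : (3 / 2 * R) ^ 2 = 9 / 4 * R ^ 2 := by ring
  have m1 : g1 ≤ 3 / 2 * R := le_of_sq_le_sq (by rw [e1, hRq]; linarith) (by positivity)
  have m2 : g2 ≤ 3 / 2 * R := le_of_sq_le_sq (by rw [e2, hRq]; linarith) (by positivity)
  have m3 : g3 ≤ 3 / 2 * R := le_of_sq_le_sq (by rw [e3, hRq]; linarith) (by positivity)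
  have hid := sd_identity u1 u2 u3 h g1 g2 g3 e1 e2 e3
  set E := g3 * (u2 - u1) - g2 * (u3 - u1) + g1 * (u3 - u2) with hE
  set S := g3 * (u2 - u1) + g1 * (u3 - u2) + g2 * (u3 - u1) with hS
  set Q := g1 * g3 + u1 * u3 + h ^ 2 with hQ
  have d12 : 0 < u2 - u1 := by linarith
  have d23 : 0 < u3 - u2 := by linarith
  have d13 : 0 < u3 - u1 := by linarith
  have hS2 : S ≤ 3 * R * (u3 - u1) := by
    have i1 : g3 * (u2 - u1) ≤ 3 / 2 * R * (u2 - u1) := mul_le_mul_of_nonneg_right m3 d12.le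
    have i2 : g1 * (u3 - u2) ≤ 3 / 2 * R * (u3 - u2) := mul_le_mul_of_nonneg_right m1 d23.le
    have i3 : g2 * (u3 - u1) ≤ 3 / 2 * R * (u3 - u1) := mul_le_mul_of_nonneg_right m2 d13.le
    rw [hS]; linarith
  have hS1 : 2 * |h| * (u3 - u1) ≤ S := by
    have i1 : |h| * (u2 - u1) ≤ g3 * (u2 - u1) := mul_le_mul_of_nonneg_right l3 d12.le
    have i2 : |h| * (u3 - u2) ≤ g1 * (u3 - u2) := mul_le_mul_of_nonneg_right l1 d23.le
    have i3 : |h| * (u3 - u1) ≤ g2 * (u3 - u1) := mul_le_mul_of_nonneg_right l2 d13.le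
    rw [hS]; linarith
  -- Cauchy
  have hC1 : u1 * u3 + h ^ 2 ≤ g1 * g3 := by
    apply le_of_sq_le_sq _ (mul_nonneg p1 p3)
    rw [mul_pow, e1, e3]
    have := mul_nonneg (sq_nonneg h) (sq_nonneg (u1 - u3))
    linarith
  have hC2 : - (u1 * u3) + h ^ 2 ≤ g1 * g3 := by
    apply le_of_sq_le_sq _ (mul_nonneg p1 p3)
    rw [mul_pow, e1, e3]
    have := mul_nonneg (sq_nonneg h) (sq_nonneg (u1 + u3))
    linarith
  have hQ1 : 2 * h ^ 2 ≤ Q := by rw [hQ]; linarith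
  have hQ2 : Q ≤ 4 * R ^ 2 := by
    have : g1 * g3 ≤ 2 * R ^ 2 := by
      have := sq_nonneg (g1 - g3)
      have h5 : (g1 - g3) ^ 2 = g1 ^ 2 + g3 ^ 2 - 2 * (g1 * g3) := by ring
      rw [h5, e1, e3] at this
      linarith
    rw [hQ]; linarith
  have hpos : 0 < 2 * (u2 - u1) * (u3 - u2) * h ^ 2 * (u3 - u1) ^ 2 := by
    have : 0 < h ^ 2 := by rw [← hh2]; positivity
    positivity
  have hSpos : 0 < S := lt_of_lt_of_le (by positivity) hS1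
  have hQpos : 0 < Q := lt_of_lt_of_le (by rw [← hh2]; positivity) hQ1
  have hEpos : 0 < E := by
    by_contra hcon
    have : E * (S * Q) ≤ 0 := mul_nonpos_of_nonpos_of_nonneg (not_lt.1 hcon) (by positivity)
    linarith
  constructor
  · have h1 : E * (S * Q) ≤ E * ((3 * R * (u3 - u1)) * (4 * R ^ 2)) :=
      mul_le_mul_of_nonneg_left (mul_le_mul hS2 hQ2 hQpos.le (by positivity)) hEpos.le
    rw [hid] at h1
    have h2 : (2 * (u3 - u1)) * ((u2 - u1) * (u3 - u2) * (u3 - u1) * h ^ 2) ≤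
        (2 * (u3 - u1)) * (6 * R ^ 3 * E) := by linarith
    exact le_of_mul_le_mul_left h2 (by positivity)
  · have h1 : E * ((2 * |h| * (u3 - u1)) * (2 * h ^ 2)) ≤ E * (S * Q) :=
      mul_le_mul_of_nonneg_left (mul_le_mul hS1 hQ1 (by positivity) hSpos.le) hEpos.le
    rw [hid] at h1
    have hh3 : 0 < h ^ 2 := by rw [← hh2]; positivity
    have h2 : (2 * h ^ 2 * (u3 - u1)) * (2 * |h| * E) ≤
        (2 * h ^ 2 * (u3 - u1)) * ((u2 - u1) * (u3 - u2) * (u3 - u1)) := by linarith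
    exact le_of_mul_le_mul_left h2 (by positivity)

end Pool.Agent.Helper52.ETSP.Gen
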