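import Pool.Agent.Helper52.ETSP.Defs

namespace Pool.Agent.Helper52.ETSP

/-- The square of the Euclidean distance, a natural number. -/
def sqdist (p q : ℤ × ℤ) : ℕ := (p.1 - q.1).natAbs ^ 2 + (p.2 - q.2).natAbs ^ 2

/-- The length of a tour rounded in units of `1 / s`: an edge of exact length `d` counts as the
integer `⌊s d⌋ + c`, computed by an integer square root; `c = 0` rounds down and `c = 1` rounds
up. -/
def Instance.roundedLen (I : Instance) (c s : ℕ) (σ : Equiv.Perm (Fin I.n)) : ℕ :=
  ∑ i, (Nat.sqrt (s ^ 2 * sqdist (I.pt (σ i)) (I.pt (σ (finRotate I.n i)))) + c)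

/-- The rounded problem: some tour has rounded length at most `s` times the bound. -/
def Instance.RoundedYes (I : Instance) (c s : ℕ) : Prop := ∃ σ, I.roundedLen c s σ ≤ s * I.bound

/-- The instance with the distinct points `p 0, ..., p (n-1)` of the grid `{0, ..., N-1}²` and the
bound `B`. -/
def gridInstance {n N : ℕ} (p : Fin n ↪ Fin N × Fin N) (B : ℕ) (hB : 0 < B) : Instance where
  n := n
  pt i := (((p i).1 : ℕ), ((p i).2 : ℕ))
  inj i j hij := by
    have h1 : (((p i).1 : ℕ) : ℤ) = ((p j).1 : ℕ) := congrArg Prod.fst hij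
    have h2 : (((p i).2 : ℕ) : ℤ) = ((p j).2 : ℕ) := congrArg Prod.snd hij
    exact p.injective (Prod.ext (Fin.ext (by exact_mod_cast h1)) (Fin.ext (by exact_mod_cast h2)))
  bound := B
  bound_pos := hB

/-- The optimal tours of the instance have exact length at distance at least `δ` from every
integer. -/
def Instance.Gap (I : Instance) (δ : ℝ) : Prop :=
  ∀ σ, (∀ τ, I.len σ ≤ I.len τ) → ∀ B : ℤ, δ ≤ |I.len σ - B|

/-- A list of `n` distinct points of the grid `{0, ..., N-1}²` is robust if its optimal tour length
is at distance at least `1 / (6 N √N)` from every integer and, for every bound, the exact problem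
has the same answer as both problems rounded (up or down) to multiples of `1 / (6 n N²)`. -/
def Robust {n N : ℕ} (p : Fin n ↪ Fin N × Fin N) : Prop :=
  (gridInstance p 1 one_pos).Gap (1 / (6 * N * Real.sqrt N)) ∧
  ∀ (B : ℕ) (hB : 0 < B),
    ((gridInstance p B hB).Yes ↔ (gridInstance p B hB).RoundedYes 1 (6 * n * N ^ 2)) ∧
    ((gridInstance p B hB).Yes ↔ (gridInstance p B hB).RoundedYes 0 (6 * n * N ^ 2))

end Pool.Agent.Helper52.ETSP
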