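import Mathlib
import Pool.Agent.Helper52.ETSP.GenAnalysis

namespace Pool.Agent.Helper52.ETSP.Gen

/-- Three lattice abscissae at which a sum of two distances (plus a constant) is very close to an
integer cannot be close to each other. -/
theorem three_points (a c h k K R H : ℝ) (x1 x2 x3 : ℤ) (h12 : x1 < x2) (h23 : x2 < x3)
    (hH : 0 < H) (hHR : H ≤ R) (hh : H ≤ |h|) (hk : H ≤ |k|) (hhR : |h| ≤ R) (hkR : |k| ≤ R)
    (a1 : |(x1 : ℝ) - a| ≤ R) (a2 : |(x2 : ℝ) - a| ≤ R) (a3 : |(x3 : ℝ) - a| ≤ R)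
    (c1 : |(x1 : ℝ) - c| ≤ R) (c2 : |(x2 : ℝ) - c| ≤ R) (c3 : |(x3 : ℝ) - c| ≤ R)
    (hw : (x3 : ℝ) - x1 ≤ R) (m1 m2 m3 : ℤ)
    (n1 : |Real.sqrt ((x1 - a) ^ 2 + h ^ 2) + Real.sqrt ((x1 - c) ^ 2 + k ^ 2) + K - m1| <
      H ^ 2 / (6 * R ^ 3))
    (n2 : |Real.sqrt ((x2 - a) ^ 2 + h ^ 2) + Real.sqrt ((x2 - c) ^ 2 + k ^ 2) + K - m2| <
      H ^ 2 / (6 * R ^ 3))
    (n3 : |Real.sqrt ((x3 - a) ^ 2 + h ^ 2) + Real.sqrt ((x3 - c) ^ 2 + k ^ 2) + K - m3| <
      H ^ 2 / (6 * R ^ 3)) :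
    H ≤ ((x3 : ℝ) - x1) ^ 3 := by
  have r12 : (x1 : ℝ) < x2 := by exact_mod_cast h12
  have r23 : (x2 : ℝ) < x3 := by exact_mod_cast h23
  have hR : 0 < R := lt_of_lt_of_le hH hHR
  have hh0 : 0 < |h| := lt_of_lt_of_le hH hh
  have hk0 : 0 < |k| := lt_of_lt_of_le hH hk
  obtain ⟨A1, A2⟩ := sd_bounds (x1 - a) (x2 - a) (x3 - a) h R (by linarith) (by linarith) hh0
    a1 a2 a3 hhR
  obtain ⟨C1, C2⟩ := sd_bounds (x1 - c) (x2 - c) (x3 - c) k R (by linarith) (by linarith) hk0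
    c1 c2 c3 hkR
  have hhs : H ^ 2 ≤ h ^ 2 := by rw [← sq_abs h]; exact pow_le_pow_left₀ hH.le hh 2
  have hks : H ^ 2 ≤ k ^ 2 := by rw [← sq_abs k]; exact pow_le_pow_left₀ hH.le hk 2
  set b : ℝ := (x2 : ℝ) - x1 with hb
  set d : ℝ := (x3 : ℝ) - x2 with hd
  set w : ℝ := (x3 : ℝ) - x1 with hw'
  have hb1 : 1 ≤ b := by
    have : (x1 : ℝ) + 1 ≤ x2 := by exact_mod_cast h12
    rw [hb]; linarith
  have hd1 : 1 ≤ d := by
    have : (x2 : ℝ) + 1 ≤ x3 := by exact_mod_cast h23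
    rw [hd]; linarith
  have hbd : b + d = w := by rw [hb, hd, hw']; ring
  have q1 : (x2 - a) - (x1 - a) = b := by rw [hb]; ring
  have q2 : (x3 - a) - (x2 - a) = d := by rw [hd]; ring
  have q3 : (x3 - a) - (x1 - a) = w := by rw [hw']; ring
  have q4 : (x2 - c) - (x1 - c) = b := by rw [hb]; ring
  have q5 : (x3 - c) - (x2 - c) = d := by rw [hd]; ring
  have q6 : (x3 - c) - (x1 - c) = w := by rw [hw']; ring
  rw [q1, q2, q3] at A1 A2
  rw [q4, q5, q6] at C1 C2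
  set f1 := Real.sqrt ((x1 - a) ^ 2 + h ^ 2)
  set f2 := Real.sqrt ((x2 - a) ^ 2 + h ^ 2)
  set f3 := Real.sqrt ((x3 - a) ^ 2 + h ^ 2)
  set g1 := Real.sqrt ((x1 - c) ^ 2 + k ^ 2)
  set g2 := Real.sqrt ((x2 - c) ^ 2 + k ^ 2)
  set g3 := Real.sqrt ((x3 - c) ^ 2 + k ^ 2)
  set EA := f3 * b - f2 * w + f1 * d with hEA
  set EC := g3 * b - g2 * w + g1 * d with hEC
  have hbdw : 0 < b * d * w := by
    have : 0 < w := by linarith
    have : 0 < b := by linarith
    have : 0 < d := by linarith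
    positivity
  -- lower bound for the total second difference
  have L1 : 2 * (b * d * w * H ^ 2) ≤ 6 * R ^ 3 * (EA + EC) := by
    have i1 : b * d * w * H ^ 2 ≤ b * d * w * h ^ 2 := mul_le_mul_of_nonneg_left hhs hbdw.le
    have i2 : b * d * w * H ^ 2 ≤ b * d * w * k ^ 2 := mul_le_mul_of_nonneg_left hks hbdw.le
    linarith
  have R3 : 0 < 6 * R ^ 3 := by positivity
  have EApos : 0 < EA := by
    have : 0 < 6 * R ^ 3 * EA := lt_of_lt_of_le (by
      have : 0 < h ^ 2 := lt_of_lt_of_le (by positivity) hhs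
      positivity) A1
    exact (mul_pos_iff_of_pos_left R3).1 this
  have ECpos : 0 < EC := by
    have : 0 < 6 * R ^ 3 * EC := lt_of_lt_of_le (by
      have : 0 < k ^ 2 := lt_of_lt_of_le (by positivity) hks
      positivity) C1
    exact (mul_pos_iff_of_pos_left R3).1 this
  have U1 : H * (EA + EC) ≤ b * d * w := by
    have i1 : 2 * H * EA ≤ 2 * |h| * EA := mul_le_mul_of_nonneg_right (by linarith) EApos.le
    have i2 : 2 * H * EC ≤ 2 * |k| * EC := mul_le_mul_of_nonneg_right (by linarith) ECpos.le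
    linarith
  -- the integer close to the second difference
  have hM : (EA + EC) - ((m3 * (x2 - x1) - m2 * (x3 - x1) + m1 * (x3 - x2) : ℤ) : ℝ) =
      (f3 + g3 + K - m3) * b - (f2 + g2 + K - m2) * w + (f1 + g1 + K - m1) * d := by
    push_cast
    rw [hEA, hEC, ← hbd, hb, hd]
    ring
  set M : ℤ := m3 * (x2 - x1) - m2 * (x3 - x1) + m1 * (x3 - x2) with hMdef
  set δ : ℝ := H ^ 2 / (6 * R ^ 3) with hδ
  have hδpos : 0 < δ := by positivity
  have hclose : |(EA + EC) - (M : ℝ)| < 2 * δ * w := by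
    rw [hM]
    have t1 : |(f3 + g3 + K - m3) * b| ≤ δ * b := by
      rw [abs_mul, abs_of_pos (by linarith : (0:ℝ) < b)]
      exact mul_le_mul_of_nonneg_right n3.le (by linarith)
    have t2 : |(f2 + g2 + K - m2) * w| < δ * w := by
      rw [abs_mul, abs_of_pos (by linarith : (0:ℝ) < w)]
      exact mul_lt_mul_of_pos_right n2 (by linarith)
    have t3 : |(f1 + g1 + K - m1) * d| ≤ δ * d := by
      rw [abs_mul, abs_of_pos (by linarith : (0:ℝ) < d)]
      exact mul_le_mul_of_nonneg_right n1.le (by linarith)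
    calc |(f3 + g3 + K - m3) * b - (f2 + g2 + K - m2) * w + (f1 + g1 + K - m1) * d|
        ≤ |(f3 + g3 + K - m3) * b - (f2 + g2 + K - m2) * w| + |(f1 + g1 + K - m1) * d| :=
          abs_add_le _ _
      _ ≤ |(f3 + g3 + K - m3) * b| + |(f2 + g2 + K - m2) * w| + |(f1 + g1 + K - m1) * d| := by
          gcongr; exact abs_sub _ _
      _ < δ * b + δ * w + δ * d := by linarith
      _ = 2 * δ * w := by rw [← hbd]; ring
  have hδR : δ * (6 * R ^ 3) = H ^ 2 := by rw [hδ]; field_simp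
  have hwpos : 0 < w := by linarith
  have hM1 : 1 ≤ M := by
    by_contra hcon
    have hM0 : (M : ℝ) ≤ 0 := by exact_mod_cast (by omega : M ≤ 0)
    have h1 : EA + EC < 2 * δ * w := by
      have := (abs_lt.1 hclose).2
      linarith
    have h2 : 6 * R ^ 3 * (EA + EC) < 6 * R ^ 3 * (2 * δ * w) := mul_lt_mul_of_pos_left h1 R3
    have h3 : 6 * R ^ 3 * (2 * δ * w) = 2 * H ^ 2 * w := by rw [← hδR]; ring
    have h4 : w * H ^ 2 ≤ b * d * w * H ^ 2 := by
      have : 1 ≤ b * d := one_le_mul_of_one_le_of_one_le hb1 hd1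
      have h5 : 1 * (w * H ^ 2) ≤ (b * d) * (w * H ^ 2) :=
        mul_le_mul_of_nonneg_right this (by positivity)
      linarith
    linarith
  have hM1' : (1 : ℝ) ≤ M := by exact_mod_cast hM1
  have h23' : 2 / 3 ≤ EA + EC := by
    have h1 := (abs_lt.1 hclose).1
    have h2 : 2 * δ * w ≤ 1 / 3 := by
      have h3 : 6 * R ^ 3 * (2 * δ * w) ≤ 6 * R ^ 3 * (1 / 3) := by
        have : 6 * R ^ 3 * (2 * δ * w) = 2 * H ^ 2 * w := by rw [← hδR]; ring
        rw [this]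
        have h4 : H ^ 2 ≤ R ^ 2 := pow_le_pow_left₀ hH.le hHR 2
        have h5 : H ^ 2 * w ≤ R ^ 2 * R := mul_le_mul h4 hw hwpos.le (by positivity)
        calc 2 * H ^ 2 * w = 2 * (H ^ 2 * w) := by ring
          _ ≤ 2 * (R ^ 2 * R) := by linarith
          _ = 6 * R ^ 3 * (1 / 3) := by ring
      exact le_of_mul_le_mul_left h3 R3
    linarith
  have h6 : H * (2 / 3) ≤ b * d * w := le_trans (mul_le_mul_of_nonneg_left h23' hH.le) U1
  have h7 : b * d * w ≤ w ^ 3 / 4 := by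
    have : 4 * (b * d) ≤ w ^ 2 := by
      rw [← hbd]
      have h0 := sq_nonneg (b - d)
      have h9 : (b + d) ^ 2 - 4 * (b * d) = (b - d) ^ 2 := by ring
      linarith
    have := mul_le_mul_of_nonneg_right this hwpos.le
    linarith [this, (by ring : w ^ 2 * w = w ^ 3)]
  have h8 : 0 < w ^ 3 := by positivity
  linarith

/-- A set of integers of `{0, ..., N-1}` any three of whose elements span at least `G` has at most
`2 (N / G + 1)` elements. -/
theorem card_le_of_spread {N : ℕ} (S : Finset (Fin N)) (G : ℝ) (hG : 0 < G)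
    (h : ∀ x1 ∈ S, ∀ x2 ∈ S, ∀ x3 ∈ S, x1 < x2 → x2 < x3 → G ≤ ((x3 : ℕ) : ℝ) - ((x1 : ℕ) : ℝ)) :
    (S.card : ℝ) ≤ 2 * (N / G + 1) := by
  classical
  have key : S.card ≤ 2 * (S.image fun x : Fin N => ⌊((x : ℕ) : ℝ) / G⌋₊).card := by
    apply Finset.card_le_mul_card_image
    intro j _
    by_contra hcon
    push Not at hcon
    obtain ⟨x, y, z, hx, hy, hz, hxy, hxz, hyz⟩ := Finset.two_lt_card_iff.1 hcon
    -- order them
    have aux : ∀ x1 x2 x3 : Fin N, x1 ∈ S.filter (fun x : Fin N => ⌊((x : ℕ) : ℝ) / G⌋₊ = j) →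
        x2 ∈ S.filter (fun x : Fin N => ⌊((x : ℕ) : ℝ) / G⌋₊ = j) →
        x3 ∈ S.filter (fun x : Fin N => ⌊((x : ℕ) : ℝ) / G⌋₊ = j) → x1 < x2 → x2 < x3 → False := by
      intro x1 x2 x3 h1 h2 h3 h12 h23
      rw [Finset.mem_filter] at h1 h2 h3
      have hG' := h x1 h1.1 x2 h2.1 x3 h3.1 h12 h23
      have e1 : (j : ℝ) ≤ ((x1 : ℕ) : ℝ) / G := by
        rw [← h1.2]; exact Nat.floor_le (by positivity)
      have e3 : ((x3 : ℕ) : ℝ) / G < j + 1 := by
        rw [← h3.2]; exact Nat.lt_floor_add_one _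
      rw [le_div_iff₀ hG] at e1
      rw [div_lt_iff₀ hG] at e3
      linarith
    rcases lt_or_gt_of_ne hxy with h1 | h1 <;> rcases lt_or_gt_of_ne hxz with h2 | h2 <;>
      rcases lt_or_gt_of_ne hyz with h3 | h3
    · exact aux x y z hx hy hz h1 h3
    · exact aux x z y hx hz hy h2 h3
    · exact absurd (h1.trans h3) (not_lt.2 h2.le)
    · exact aux z x y hz hx hy h2 h1
    · exact aux y x z hy hx hz h1 h2
    · exact absurd (h3.trans h1) (not_lt.2 h2.le)
    · exact aux y z x hy hz hx h3 h2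
    · exact aux z y x hz hy hx h3 h1
  have himg : (S.image fun x : Fin N => ⌊((x : ℕ) : ℝ) / G⌋₊).card ≤ ⌊(N : ℝ) / G⌋₊ + 1 := by
    calc _ ≤ (Finset.range (⌊(N : ℝ) / G⌋₊ + 1)).card := by
          apply Finset.card_le_card
          intro j hj
          rw [Finset.mem_image] at hj
          obtain ⟨x, -, rfl⟩ := hj
          rw [Finset.mem_range]
          have : ⌊((x : ℕ) : ℝ) / G⌋₊ ≤ ⌊(N : ℝ) / G⌋₊ := by
            apply Nat.floor_le_floor
            have : ((x : ℕ) : ℝ) ≤ N := by exact_mod_cast x.2.le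
            gcongr
          omega
      _ = _ := Finset.card_range _
  have h1 : (S.card : ℝ) ≤ 2 * (⌊(N : ℝ) / G⌋₊ + 1) := by
    have : S.card ≤ 2 * (⌊(N : ℝ) / G⌋₊ + 1) := key.trans (Nat.mul_le_mul_left _ himg)
    exact_mod_cast this
  have h2 : (⌊(N : ℝ) / G⌋₊ : ℝ) ≤ N / G := Nat.floor_le (by positivity)
  linarith

/-- The number of `y` in `{0, ..., N-1}` at distance less than `H` from a given point. -/
theorem card_near {N : ℕ} (c H : ℝ) (hH : 0 < H) :
    ((Finset.univ.filter fun y : Fin N => |((y : ℕ) : ℝ) - c| < H).card : ℝ) ≤ 2 * H + 1 := by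
  classical
  have h1 : (Finset.univ.filter fun y : Fin N => |((y : ℕ) : ℝ) - c| < H).card ≤
      (Finset.Icc ⌈c - H⌉ ⌊c + H⌋).card := by
    apply Finset.card_le_card_of_injOn (fun y : Fin N => ((y : ℕ) : ℤ))
    · intro y hy
      simp only [Finset.coe_filter, Finset.mem_univ, true_and, Set.mem_ofPred_eq, abs_lt] at hy
      simp only [Finset.coe_Icc, Set.mem_Icc]
      constructor
      · rw [Int.ceil_le]; push_cast; linarith
      · rw [Int.le_floor]; push_cast; linarith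
    · intro y _ z _ hyz
      simp only [Nat.cast_inj] at hyz
      exact Fin.ext hyz
  have h2 : ((Finset.Icc ⌈c - H⌉ ⌊c + H⌋).card : ℝ) ≤ 2 * H + 1 := by
    rw [Int.card_Icc]
    have h3 : (((⌊c + H⌋ + 1 - ⌈c - H⌉).toNat : ℤ) : ℝ) ≤ 2 * H + 1 := by
      rw [Int.toNat_eq_max]
      push_cast
      apply max_le
      · have := Int.floor_le (c + H)
        have := Int.le_ceil (c - H)
        linarith
      · linarith
    exact_mod_cast h3
  calc _ ≤ ((Finset.Icc ⌈c - H⌉ ⌊c + H⌋).card : ℝ) := by exact_mod_cast h1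
    _ ≤ _ := h2

end Pool.Agent.Helper52.ETSP.Gen
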