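import Mathlib
import Pool.Agent.Helper52.ETSP.Defs
import Pool.Agent.Helper52.ETSP.GenThree

open Equiv

namespace Pool.Agent.Helper52.ETSP.Gen

/-- The length of a closed tour through arbitrary points. -/
noncomputable def tl {n : ℕ} (pt : Fin n → ℤ × ℤ) (σ : Perm (Fin n)) : ℝ :=
  ∑ i, edist (pt (σ i)) (pt (σ (finRotate n i)))

theorem edist_comm (p q : ℤ × ℤ) : edist p q = edist q p := by
  unfold edist
  congr 1
  push_cast
  ring

variable {m : ℕ}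

/-- successor and predecessor of the point `0` in the tour -/
def suc (σ : Perm (Fin (m + 2))) : Fin (m + 2) := σ (finRotate _ (σ.symm 0))
def pre (σ : Perm (Fin (m + 2))) : Fin (m + 2) := σ ((finRotate _).symm (σ.symm 0))

theorem rot_ne (j : Fin (m + 2)) : finRotate (m + 2) j ≠ j := by
  rw [finRotate_apply]
  intro h
  simp at h

theorem rot_symm_ne (j : Fin (m + 2)) : (finRotate (m + 2)).symm j ≠ j := by
  intro h
  have h2 := rot_ne ((finRotate (m + 2)).symm j)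
  rw [Equiv.apply_symm_apply] at h2
  exact h2 h.symm

theorem suc_ne (σ : Perm (Fin (m + 2))) : suc σ ≠ 0 := by
  intro h
  have : finRotate _ (σ.symm 0) = σ.symm 0 := by
    rw [Equiv.eq_symm_apply]; exact h
  exact rot_ne _ this

theorem pre_ne (σ : Perm (Fin (m + 2))) : pre σ ≠ 0 := by
  intro h
  have : (finRotate _).symm (σ.symm 0) = σ.symm 0 := by
    rw [Equiv.eq_symm_apply σ]; exact h
  exact rot_symm_ne _ this

/-- the part of the tour which avoids the point `0` -/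
noncomputable def rest (pt : Fin (m + 2) → ℤ × ℤ) (σ : Perm (Fin (m + 2))) : ℝ :=
  ∑ i ∈ (Finset.univ.erase (σ.symm 0)).erase ((finRotate _).symm (σ.symm 0)),
    edist (pt (σ i)) (pt (σ (finRotate _ i)))

theorem tl_eq (pt : Fin (m + 2) → ℤ × ℤ) (σ : Perm (Fin (m + 2))) :
    tl pt σ = edist (pt 0) (pt (suc σ)) + edist (pt 0) (pt (pre σ)) + rest pt σ := by
  unfold tl rest
  rw [← Finset.add_sum_erase Finset.univ _ (Finset.mem_univ (σ.symm 0)),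
    ← Finset.add_sum_erase (Finset.univ.erase (σ.symm 0)) _
      (Finset.mem_erase.2 ⟨rot_symm_ne _, Finset.mem_univ _⟩)]
  have h1 : σ (σ.symm 0) = 0 := Equiv.apply_symm_apply _ _
  have h2 : finRotate (m + 2) ((finRotate (m + 2)).symm (σ.symm 0)) = σ.symm 0 :=
    Equiv.apply_symm_apply _ _
  rw [h1, h2, h1]
  rw [edist_comm (pt (σ ((finRotate (m + 2)).symm (σ.symm 0)))) (pt 0)]
  unfold suc pre
  ring

theorem rest_congr (pt pt' : Fin (m + 2) → ℤ × ℤ) (h : ∀ i, i ≠ 0 → pt i = pt' i)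
    (σ : Perm (Fin (m + 2))) : rest pt σ = rest pt' σ := by
  unfold rest
  apply Finset.sum_congr rfl
  intro i hi
  rw [Finset.mem_erase, Finset.mem_erase] at hi
  have h1 : σ i ≠ 0 := by
    intro h0; exact hi.2.1 (by rw [← h0, Equiv.symm_apply_apply])
  have h2 : σ (finRotate _ i) ≠ 0 := by
    intro h0
    apply hi.1
    rw [← h0, Equiv.symm_apply_apply, Equiv.symm_apply_apply]
  rw [h _ h1, h _ h2]

theorem rest_eq (pt pt' : Fin (m + 2) → ℤ × ℤ) (h : ∀ i, i ≠ 0 → pt i = pt' i)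
    (σ σ' : Perm (Fin (m + 2))) (ho : ∀ τ, tl pt σ ≤ tl pt τ) (ho' : ∀ τ, tl pt' σ' ≤ tl pt' τ)
    (hs : suc σ = suc σ') (hp : pre σ = pre σ') : rest pt σ = rest pt' σ' := by
  have h1 := ho σ'
  have h2 := ho' σ
  rw [tl_eq, tl_eq, hs, hp] at h1
  rw [tl_eq, tl_eq, hs, hp] at h2
  have h3 := rest_congr pt pt' h σ
  have h4 := rest_congr pt pt' h σ'
  linarith

/-- grid points as points of the plane -/
def toZ {N : ℕ} (u : Fin N × Fin N) : ℤ × ℤ := ((u.1 : ℕ), (u.2 : ℕ))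

/-- the point list with first point `z` and the other points `q` -/
def pts {N : ℕ} (z : Fin N × Fin N) (q : Fin (m + 1) → Fin N × Fin N) (i : Fin (m + 2)) : ℤ × ℤ :=
  toZ (Fin.cons (α := fun _ => Fin N × Fin N) z q i)

theorem pts_zero {N : ℕ} (z : Fin N × Fin N) (q : Fin (m + 1) → Fin N × Fin N) :
    pts z q 0 = toZ z := by unfold pts; rw [Fin.cons_zero]

theorem pts_succ {N : ℕ} (z : Fin N × Fin N) (q : Fin (m + 1) → Fin N × Fin N) (i : Fin (m + 1)) :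
    pts z q i.succ = toZ (q i) := by unfold pts; rw [Fin.cons_succ]

theorem pts_agree {N : ℕ} (z z' : Fin N × Fin N) (q : Fin (m + 1) → Fin N × Fin N) :
    ∀ i, i ≠ 0 → pts z q i = pts z' q i := by
  intro i hi
  obtain ⟨j, rfl⟩ := Fin.exists_succ_eq.2 hi
  rw [pts_succ, pts_succ]

/-- `z` is critical for `q`, `s`, `r` -/
def Crit {N : ℕ} (δ : ℝ) (q : Fin (m + 1) → Fin N × Fin N) (s r : Fin (m + 1))
    (z : Fin N × Fin N) : Prop :=
  ∃ σ : Perm (Fin (m + 2)), (∀ τ, tl (pts z q) σ ≤ tl (pts z q) τ) ∧ suc σ = s.succ ∧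
    pre σ = r.succ ∧ ∃ B : ℤ, |tl (pts z q) σ - B| < δ

theorem exists_crit {N : ℕ} (δ : ℝ) (q : Fin (m + 1) → Fin N × Fin N) (z : Fin N × Fin N)
    (σ : Perm (Fin (m + 2))) (ho : ∀ τ, tl (pts z q) σ ≤ tl (pts z q) τ) (B : ℤ)
    (hB : |tl (pts z q) σ - B| < δ) : ∃ s r, Crit δ q s r z := by
  obtain ⟨s, hs⟩ := Fin.exists_succ_eq.2 (suc_ne σ)
  obtain ⟨r, hr⟩ := Fin.exists_succ_eq.2 (pre_ne σ)
  exact ⟨s, r, σ, ho, hs.symm, hr.symm, B, hB⟩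

theorem fin_abs {N : ℕ} (x y : Fin N) : |((x : ℕ) : ℝ) - ((y : ℕ) : ℝ)| ≤ N := by
  have h1 : ((x : ℕ) : ℝ) ≤ N := by exact_mod_cast x.2.le
  have h2 : ((y : ℕ) : ℝ) ≤ N := by exact_mod_cast y.2.le
  have h3 : (0 : ℝ) ≤ ((x : ℕ) : ℝ) := by positivity
  have h4 : (0 : ℝ) ≤ ((y : ℕ) : ℝ) := by positivity
  rw [abs_le]; constructor <;> linarith

/-- On a horizontal line far from the neighbours the critical points are spread out. -/
theorem crit_spread {N : ℕ} (H : ℝ) (hH : 0 < H) (hHN : H ≤ N)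
    (q : Fin (m + 1) → Fin N × Fin N) (s r : Fin (m + 1)) (y : Fin N)
    (hs : H ≤ |((y : ℕ) : ℝ) - (((q s).2 : ℕ) : ℝ)|)
    (hr : H ≤ |((y : ℕ) : ℝ) - (((q r).2 : ℕ) : ℝ)|)
    (x1 x2 x3 : Fin N) (h12 : x1 < x2) (h23 : x2 < x3)
    (c1 : Crit (H ^ 2 / (6 * (N : ℝ) ^ 3)) q s r (x1, y))
    (c2 : Crit (H ^ 2 / (6 * (N : ℝ) ^ 3)) q s r (x2, y))
    (c3 : Crit (H ^ 2 / (6 * (N : ℝ) ^ 3)) q s r (x3, y)) :
    H ≤ (((x3 : ℕ) : ℝ) - ((x1 : ℕ) : ℝ)) ^ 3 := by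
  obtain ⟨σ1, o1, s1, r1, B1, b1⟩ := c1
  obtain ⟨σ2, o2, s2, r2, B2, b2⟩ := c2
  obtain ⟨σ3, o3, s3, r3, B3, b3⟩ := c3
  have K2 : rest (pts (x2, y) q) σ2 = rest (pts (x1, y) q) σ1 :=
    rest_eq _ _ (pts_agree _ _ q) σ2 σ1 o2 o1 (s2.trans s1.symm) (r2.trans r1.symm)
  have K3 : rest (pts (x3, y) q) σ3 = rest (pts (x1, y) q) σ1 :=
    rest_eq _ _ (pts_agree _ _ q) σ3 σ1 o3 o1 (s3.trans s1.symm) (r3.trans r1.symm)
  rw [tl_eq, s1, r1, pts_zero, pts_succ, pts_succ] at b1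
  rw [tl_eq, s2, r2, pts_zero, pts_succ, pts_succ, K2] at b2
  rw [tl_eq, s3, r3, pts_zero, pts_succ, pts_succ, K3] at b3
  have e : ∀ (x : Fin N) (u : Fin N × Fin N), edist (toZ (x, y)) (toZ u) =
      Real.sqrt ((((x : ℕ) : ℤ) - (((u.1 : ℕ) : ℤ) : ℝ)) ^ 2 +
        (((y : ℕ) : ℝ) - ((u.2 : ℕ) : ℝ)) ^ 2) := by
    intro x u
    unfold edist toZ
    push_cast
    rfl
  rw [e, e] at b1 b2 b3
  have hx12 : (((x1 : ℕ) : ℤ)) < (((x2 : ℕ) : ℤ)) := by exact_mod_cast h12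
  have hx23 : (((x2 : ℕ) : ℤ)) < (((x3 : ℕ) : ℤ)) := by exact_mod_cast h23
  have cc : ∀ x : Fin N, ((((x : ℕ) : ℤ)) : ℝ) = ((x : ℕ) : ℝ) := fun x => by push_cast; rfl
  have main := three_points ((((q s).1 : ℕ) : ℤ) : ℝ) ((((q r).1 : ℕ) : ℤ) : ℝ)
    (((y : ℕ) : ℝ) - (((q s).2 : ℕ) : ℝ)) (((y : ℕ) : ℝ) - (((q r).2 : ℕ) : ℝ))
    (rest (pts (x1, y) q) σ1) N H ((x1 : ℕ) : ℤ) ((x2 : ℕ) : ℤ) ((x3 : ℕ) : ℤ) hx12 hx23 hH hHN
    hs hr (fin_abs _ _) (fin_abs _ _)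
    (by rw [cc, cc]; exact fin_abs _ _) (by rw [cc, cc]; exact fin_abs _ _)
    (by rw [cc, cc]; exact fin_abs _ _) (by rw [cc, cc]; exact fin_abs _ _)
    (by rw [cc, cc]; exact fin_abs _ _) (by rw [cc, cc]; exact fin_abs _ _)
    (by rw [cc, cc]; exact (le_abs_self _).trans (fin_abs _ _)) B1 B2 B3 b1 b2 b3
  rw [cc, cc] at main
  exact main

end Pool.Agent.Helper52.ETSP.Gen
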