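import Mathlib
import Pool.Agent.Helper52.ETSP.GenDefs
import Pool.Agent.Helper52.ETSP.GenTour

open Equiv

namespace Pool.Agent.Helper52.ETSP.Gen

variable {m : ℕ}

open Classical in
theorem count_crit {N : ℕ} (G : ℝ) (hG1 : 1 ≤ G) (hG : G ^ 4 = N)
    (q : Fin (m + 1) → Fin N × Fin N) (s r : Fin (m + 1)) :
    ((Finset.univ.filter fun z : Fin N × Fin N =>
      Crit ((G ^ 3) ^ 2 / (6 * (N : ℝ) ^ 3)) q s r z).card : ℝ) ≤ 10 * G ^ 7 := by
  set δ : ℝ := (G ^ 3) ^ 2 / (6 * (N : ℝ) ^ 3) with hδ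
  set Z := Finset.univ.filter fun z : Fin N × Fin N => Crit δ q s r z with hZ
  have hG0 : 0 < G := by linarith
  have hH : 0 < G ^ 3 := by positivity
  have hHN : G ^ 3 ≤ N := by
    rw [← hG]; exact pow_le_pow_right₀ hG1 (by norm_num)
  have h1 : Z.card = ∑ y : Fin N, (Z.filter fun z => z.2 = y).card :=
    Finset.card_eq_sum_card_fiberwise fun _ _ => Finset.mem_univ _
  have h2 : ∀ y : Fin N, (Z.filter fun z => z.2 = y).card ≤
      (Finset.univ.filter fun x : Fin N => Crit δ q s r (x, y)).card := by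
    intro y
    apply Finset.card_le_card_of_injOn (fun z : Fin N × Fin N => z.1)
    · intro z hz
      simp only [hZ, Finset.coe_filter, Finset.mem_filter, Finset.mem_univ, true_and,
        Set.mem_ofPred_eq] at hz ⊢
      obtain ⟨hz1, rfl⟩ := hz
      exact hz1
    · intro z hz z' hz' hzz
      simp only [hZ, Finset.coe_filter, Finset.mem_filter, Finset.mem_univ, true_and,
        Set.mem_ofPred_eq] at hz hz'
      exact Prod.ext hzz (hz.2.trans hz'.2.symm)
  let bad : Fin N → Prop := fun y => |((y : ℕ) : ℝ) - (((q s).2 : ℕ) : ℝ)| < G ^ 3 ∨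
    |((y : ℕ) : ℝ) - (((q r).2 : ℕ) : ℝ)| < G ^ 3
  have h3 : ∀ y : Fin N, ((Finset.univ.filter fun x : Fin N => Crit δ q s r (x, y)).card : ℝ) ≤
      (if bad y then (N : ℝ) else 0) + 2 * (G ^ 3 + 1) := by
    intro y
    by_cases hb : bad y
    · rw [if_pos hb]
      have : (Finset.univ.filter fun x : Fin N => Crit δ q s r (x, y)).card ≤ N := by
        calc _ ≤ (Finset.univ : Finset (Fin N)).card := Finset.card_filter_le _ _
          _ = N := by simp
      have : ((Finset.univ.filter fun x : Fin N => Crit δ q s r (x, y)).card : ℝ) ≤ N := by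
        exact_mod_cast this
      have : 0 ≤ 2 * (G ^ 3 + 1) := by positivity
      linarith
    · rw [if_neg hb]
      have hb' := not_or.1 hb
      have hsp := card_le_of_spread (Finset.univ.filter fun x : Fin N => Crit δ q s r (x, y)) G hG0
        (by
          intro x1 k1 x2 k2 x3 k3 l12 l23
          rw [Finset.mem_filter] at k1 k2 k3
          have := crit_spread (G ^ 3) hH hHN q s r y (not_lt.1 hb'.1) (not_lt.1 hb'.2)
            x1 x2 x3 l12 l23 k1.2 k2.2 k3.2
          refine le_of_pow_le_pow_left₀ (n := 3) (by norm_num) ?_ this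
          have : ((x1 : ℕ) : ℝ) ≤ ((x3 : ℕ) : ℝ) := by
            exact_mod_cast (l12.trans l23).le
          linarith)
      have : (N : ℝ) / G = G ^ 3 := by
        rw [← hG]; field_simp
      rw [this] at hsp
      linarith
  have h4 : (Z.card : ℝ) ≤ ∑ y : Fin N, ((if bad y then (N : ℝ) else 0) + 2 * (G ^ 3 + 1)) := by
    rw [h1]
    push_cast
    apply Finset.sum_le_sum
    intro y _
    exact le_trans (by exact_mod_cast h2 y) (h3 y)
  have h5 : (∑ y : Fin N, (if bad y then (N : ℝ) else 0)) =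
      ((Finset.univ.filter bad).card : ℝ) * N := by
    rw [← Finset.sum_filter, Finset.sum_const, nsmul_eq_mul]
  have h6 : ((Finset.univ.filter bad).card : ℝ) ≤ 4 * G ^ 3 + 2 := by
    have e : Finset.univ.filter bad =
        (Finset.univ.filter fun y : Fin N => |((y : ℕ) : ℝ) - (((q s).2 : ℕ) : ℝ)| < G ^ 3) ∪
        (Finset.univ.filter fun y : Fin N => |((y : ℕ) : ℝ) - (((q r).2 : ℕ) : ℝ)| < G ^ 3) := by
      rw [← Finset.filter_or]
    have := Finset.card_union_le
      (Finset.univ.filter fun y : Fin N => |((y : ℕ) : ℝ) - (((q s).2 : ℕ) : ℝ)| < G ^ 3)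
      (Finset.univ.filter fun y : Fin N => |((y : ℕ) : ℝ) - (((q r).2 : ℕ) : ℝ)| < G ^ 3)
    rw [← e] at this
    have k1 := card_near (N := N) (((q s).2 : ℕ) : ℝ) (G ^ 3) hH
    have k2 := card_near (N := N) (((q r).2 : ℕ) : ℝ) (G ^ 3) hH
    have k3 : ((Finset.univ.filter bad).card : ℝ) ≤ 
      ((Finset.univ.filter fun y : Fin N => |((y : ℕ) : ℝ) - (((q s).2 : ℕ) : ℝ)| < G ^ 3).card : ℝ)
      + ((Finset.univ.filter fun y : Fin N =>
        |((y : ℕ) : ℝ) - (((q r).2 : ℕ) : ℝ)| < G ^ 3).card : ℝ) := by exact_mod_cast this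
    linarith
  rw [Finset.sum_add_distrib, h5, Finset.sum_const, Finset.card_univ, Fintype.card_fin,
    nsmul_eq_mul] at h4
  have hN0 : (0 : ℝ) ≤ N := by positivity
  have h7 : ((Finset.univ.filter bad).card : ℝ) * N ≤ (4 * G ^ 3 + 2) * N :=
    mul_le_mul_of_nonneg_right h6 hN0
  have hG3 : 1 ≤ G ^ 3 := one_le_pow₀ hG1
  calc (Z.card : ℝ) ≤ (4 * G ^ 3 + 2) * N + N * (2 * (G ^ 3 + 1)) := by linarith
    _ = (6 * G ^ 3 + 4) * N := by ring
    _ ≤ (10 * G ^ 3) * N := mul_le_mul_of_nonneg_right (by linarith) hN0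
    _ = 10 * G ^ 7 := by rw [← hG]; ring

/-- the tail of an embedding -/
def tailEmb {N : ℕ} (p : Fin (m + 2) ↪ Fin N × Fin N) : Fin (m + 1) ↪ Fin N × Fin N :=
  ⟨fun i => p i.succ, fun _ _ h => Fin.succ_injective _ (p.injective h)⟩

theorem pts_tail {N : ℕ} (p : Fin (m + 2) ↪ Fin N × Fin N) (i : Fin (m + 2)) :
    pts (p 0) (tailEmb p) i = toZ (p i) := by
  refine Fin.cases ?_ (fun j => ?_) i
  · rw [pts_zero]
  · rw [pts_succ]; rfl

open Classical in
/-- The number of lists of distinct grid points with an optimal tour close to an integer. -/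
theorem count_bad {N : ℕ} (G : ℝ) (hG1 : 1 ≤ G) (hG : G ^ 4 = N)
    (T : Finset (Fin (m + 2) ↪ Fin N × Fin N))
    (hT : ∀ p ∈ T, ∃ σ, (∀ τ, tl (fun i => toZ (p i)) σ ≤ tl (fun i => toZ (p i)) τ) ∧
      ∃ B : ℤ, |tl (fun i => toZ (p i)) σ - B| < (G ^ 3) ^ 2 / (6 * (N : ℝ) ^ 3)) :
    (T.card : ℝ) ≤ (10 * (m + 1) ^ 2 * G ^ 7) *
      (Fintype.card (Fin (m + 1) ↪ Fin N × Fin N) : ℝ) := by
  set δ : ℝ := (G ^ 3) ^ 2 / (6 * (N : ℝ) ^ 3) with hδ
  have hfib : ∀ q : Fin (m + 1) ↪ Fin N × Fin N,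
      ((T.filter fun p => tailEmb p = q).card : ℝ) ≤ 10 * (m + 1) ^ 2 * G ^ 7 := by
    intro q
    have h1 : (T.filter fun p => tailEmb p = q).card ≤
        ((Finset.univ : Finset (Fin (m + 1) × Fin (m + 1))).biUnion fun sr =>
          Finset.univ.filter fun z : Fin N × Fin N => Crit δ q sr.1 sr.2 z).card := by
      apply Finset.card_le_card_of_injOn (fun p => p 0)
      · intro p hp
        rw [Finset.mem_coe, Finset.mem_filter] at hp
        obtain ⟨hpT, rfl⟩ := hp
        obtain ⟨σ, ho, B, hB⟩ := hT p hpT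
        have e : (fun i => toZ (p i)) = pts (p 0) (tailEmb p) := by
          funext i; exact (pts_tail p i).symm
        rw [e] at ho hB
        obtain ⟨s, r, hc⟩ := exists_crit δ (tailEmb p) (p 0) σ ho B hB
        rw [Finset.mem_coe, Finset.mem_biUnion]
        exact ⟨(s, r), Finset.mem_univ _, Finset.mem_filter.2 ⟨Finset.mem_univ _, hc⟩⟩
      · intro p hp p' hp' h0
        rw [Finset.mem_coe, Finset.mem_filter] at hp hp'
        apply Function.Embedding.ext
        intro i
        refine Fin.cases h0 (fun j => ?_) i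
        have := congrArg (fun f : Fin (m + 1) ↪ Fin N × Fin N => f j) (hp.2.trans hp'.2.symm)
        exact this
    have h2 := h1.trans Finset.card_biUnion_le
    have h3 : ((T.filter fun p => tailEmb p = q).card : ℝ) ≤
        ∑ sr : Fin (m + 1) × Fin (m + 1), ((Finset.univ.filter fun z : Fin N × Fin N =>
          Crit δ q sr.1 sr.2 z).card : ℝ) := by exact_mod_cast h2
    refine h3.trans ?_
    calc _ ≤ ∑ _sr : Fin (m + 1) × Fin (m + 1), 10 * G ^ 7 :=
          Finset.sum_le_sum fun sr _ => count_crit G hG1 hG q sr.1 sr.2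
      _ = _ := by
          rw [Finset.sum_const, Finset.card_univ, Fintype.card_prod, Fintype.card_fin, nsmul_eq_mul]
          push_cast
          ring
  have h1 : T.card = ∑ q : Fin (m + 1) ↪ Fin N × Fin N, (T.filter fun p => tailEmb p = q).card :=
    Finset.card_eq_sum_card_fiberwise fun _ _ => Finset.mem_univ _
  rw [h1]
  push_cast
  calc _ ≤ ∑ _q : Fin (m + 1) ↪ Fin N × Fin N, (10 * ((m : ℝ) + 1) ^ 2 * G ^ 7) :=
        Finset.sum_le_sum fun q _ => hfib q
    _ = _ := by
        rw [Finset.sum_const, Finset.card_univ, nsmul_eq_mul]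
        ring

end Pool.Agent.Helper52.ETSP.Gen
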