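import Mathlib
import Pool.Agent.Helper52.ETSP.GenCount

open Equiv

namespace Pool.Agent.Helper52.ETSP.Gen

theorem edist_eq_sqrt (p q : ℤ × ℤ) : edist p q = Real.sqrt (sqdist p q) := by
  unfold edist sqdist
  congr 1
  push_cast
  rw [Nat.cast_natAbs, Nat.cast_natAbs]
  push_cast
  rw [sq_abs, sq_abs]

theorem sqrt_scaled (s d : ℕ) : Real.sqrt ((s ^ 2 * d : ℕ) : ℝ) = s * Real.sqrt d := by
  push_cast
  rw [Real.sqrt_mul (by positivity), Real.sqrt_sq (by positivity)]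

theorem round_le (s d : ℕ) : ((Nat.sqrt (s ^ 2 * d) : ℕ) : ℝ) ≤ s * Real.sqrt d := by
  rw [← sqrt_scaled]
  exact Real.nat_sqrt_le_real_sqrt

theorem le_round (s d : ℕ) : s * Real.sqrt d ≤ ((Nat.sqrt (s ^ 2 * d) + 1 : ℕ) : ℝ) := by
  rw [← sqrt_scaled]
  have := Real.real_sqrt_lt_nat_sqrt_succ (a := s ^ 2 * d)
  push_cast at this ⊢
  exact this.le

theorem le_round_lt (s d : ℕ) : s * Real.sqrt d < ((Nat.sqrt (s ^ 2 * d) + 1 : ℕ) : ℝ) := by
  rw [← sqrt_scaled]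
  have := Real.real_sqrt_lt_nat_sqrt_succ (a := s ^ 2 * d)
  push_cast at this ⊢
  exact this

theorem len_le_rounded (I : Instance) (s : ℕ) (σ : Perm (Fin I.n)) :
    s * I.len σ ≤ I.roundedLen 1 s σ := by
  unfold Instance.len Instance.roundedLen
  rw [Finset.mul_sum]
  push_cast
  apply Finset.sum_le_sum
  intro i _
  rw [edist_eq_sqrt]
  have := le_round s (sqdist (I.pt (σ i)) (I.pt (σ (finRotate I.n i))))
  push_cast at this
  exact this

theorem rounded_le_len (I : Instance) (s : ℕ) (σ : Perm (Fin I.n)) :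
    (I.roundedLen 1 s σ : ℝ) ≤ s * I.len σ + I.n := by
  unfold Instance.len Instance.roundedLen
  rw [Finset.mul_sum]
  have : (I.n : ℝ) = ∑ _i : Fin I.n, (1 : ℝ) := by simp
  rw [this, ← Finset.sum_add_distrib]
  push_cast
  apply Finset.sum_le_sum
  intro i _
  rw [edist_eq_sqrt]
  have := round_le s (sqdist (I.pt (σ i)) (I.pt (σ (finRotate I.n i))))
  linarith

theorem lowered_le_len (I : Instance) (s : ℕ) (σ : Perm (Fin I.n)) :
    (I.roundedLen 0 s σ : ℝ) ≤ s * I.len σ := by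
  unfold Instance.len Instance.roundedLen
  rw [Finset.mul_sum]
  push_cast
  apply Finset.sum_le_sum
  intro i _
  rw [edist_eq_sqrt, add_zero]
  exact round_le s (sqdist (I.pt (σ i)) (I.pt (σ (finRotate I.n i))))

theorem len_lt_lowered (I : Instance) (hn : 0 < I.n) (s : ℕ) (σ : Perm (Fin I.n)) :
    s * I.len σ < I.roundedLen 0 s σ + I.n := by
  unfold Instance.len Instance.roundedLen
  rw [Finset.mul_sum]
  have : (I.n : ℝ) = ∑ _i : Fin I.n, (1 : ℝ) := by simp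
  rw [this]
  push_cast
  rw [← Finset.sum_add_distrib]
  haveI : NeZero I.n := ⟨by omega⟩
  apply Finset.sum_lt_sum_of_nonempty (Finset.univ_nonempty)
  intro i _
  rw [edist_eq_sqrt, add_zero]
  have := le_round_lt s (sqdist (I.pt (σ i)) (I.pt (σ (finRotate I.n i))))
  push_cast at this
  exact this

theorem sound (I : Instance) (s : ℕ) (hs : 0 < s) (h : I.RoundedYes 1 s) : I.Yes := by
  obtain ⟨σ, hσ⟩ := h
  refine ⟨σ, ?_⟩
  have h1 := len_le_rounded I s σ
  have h2 : (I.roundedLen 1 s σ : ℝ) ≤ s * I.bound := by exact_mod_cast hσ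
  have h3 : (s : ℝ) * I.len σ ≤ s * I.bound := h1.trans h2
  exact le_of_mul_le_mul_left h3 (by exact_mod_cast hs)

theorem sound' (I : Instance) (s : ℕ) (h : I.Yes) : I.RoundedYes 0 s := by
  obtain ⟨σ, hσ⟩ := h
  refine ⟨σ, ?_⟩
  have h1 := lowered_le_len I s σ
  have h2 : (s : ℝ) * I.len σ ≤ s * I.bound := mul_le_mul_of_nonneg_left hσ (by positivity)
  exact_mod_cast h1.trans h2

theorem complete (I : Instance) (s : ℕ) (δ : ℝ) (hgap : I.Gap δ)
    (hs : (I.n : ℝ) ≤ s * δ) (h : I.Yes) : I.RoundedYes 1 s := by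
  obtain ⟨σ, hσ⟩ := h
  obtain ⟨τ, hτ⟩ := Finite.exists_min (fun τ : Perm (Fin I.n) => I.len τ)
  have h1 : I.len τ ≤ I.bound := (hτ σ).trans hσ
  have h2 := hgap τ hτ I.bound
  have h3 : I.len τ ≤ I.bound - δ := by
    rw [abs_of_nonpos (by push_cast; linarith)] at h2
    push_cast at h2
    linarith
  refine ⟨τ, ?_⟩
  have h4 := rounded_le_len I s τ
  have h5 : (s : ℝ) * I.len τ ≤ s * (I.bound - δ) := mul_le_mul_of_nonneg_left h3 (by positivity)
  have h6 : (I.roundedLen 1 s τ : ℝ) ≤ s * I.bound := by linarith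
  exact_mod_cast h6

theorem complete' (I : Instance) (hn : 0 < I.n) (s : ℕ) (δ : ℝ) (hgap : I.Gap δ)
    (hs : (I.n : ℝ) ≤ s * δ) (h : I.RoundedYes 0 s) : I.Yes := by
  obtain ⟨σ, hσ⟩ := h
  obtain ⟨τ, hτ⟩ := Finite.exists_min (fun τ : Perm (Fin I.n) => I.len τ)
  refine ⟨τ, ?_⟩
  by_contra hcon
  push Not at hcon
  have h2 := hgap τ hτ I.bound
  have h3 : I.bound + δ ≤ I.len τ := by
    rw [abs_of_nonneg (by push_cast; linarith)] at h2
    push_cast at h2
    linarith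
  have h4 := len_lt_lowered I hn s σ
  have h5 : (s : ℝ) * (I.bound + δ) ≤ s * I.len σ :=
    mul_le_mul_of_nonneg_left (h3.trans (hτ σ)) (by positivity)
  have h6 : (I.roundedLen 0 s σ : ℝ) ≤ s * I.bound := by exact_mod_cast hσ
  linarith

theorem robust_of_gap {n N : ℕ} (hn : 2 ≤ n) (hN : 1 ≤ N) (p : Fin n ↪ Fin N × Fin N)
    (h : (gridInstance p 1 one_pos).Gap (1 / (6 * N * Real.sqrt N))) : Robust p := by
  have hN' : (1 : ℝ) ≤ N := by exact_mod_cast hN
  have hsq : 0 < Real.sqrt N := Real.sqrt_pos.2 (by linarith)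
  have hsq1 : 1 ≤ Real.sqrt N := by
    rw [show (1 : ℝ) = Real.sqrt 1 by simp]; exact Real.sqrt_le_sqrt hN'
  have hss : Real.sqrt N * Real.sqrt N = N := Real.mul_self_sqrt (by linarith)
  have hkey : (n : ℝ) ≤ ((6 * n * N ^ 2 : ℕ) : ℝ) * (1 / (6 * N * Real.sqrt N)) := by
    push_cast
    rw [mul_one_div, le_div_iff₀ (by positivity)]
    have hn0 : (0 : ℝ) ≤ n := by positivity
    have h1 : Real.sqrt N ≤ N := by
      calc Real.sqrt N = Real.sqrt N * 1 := (mul_one _).symm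
        _ ≤ Real.sqrt N * Real.sqrt N := mul_le_mul_of_nonneg_left hsq1 hsq.le
        _ = N := hss
    have h2 : (n : ℝ) * (6 * N) * Real.sqrt N ≤ (n : ℝ) * (6 * N) * N :=
      mul_le_mul_of_nonneg_left h1 (by positivity)
    calc (n : ℝ) * (6 * N * Real.sqrt N) = (n : ℝ) * (6 * N) * Real.sqrt N := by ring
      _ ≤ (n : ℝ) * (6 * N) * N := h2
      _ = _ := by ring
  have hpos : 0 < 6 * n * N ^ 2 := by
    have : 0 < n := by omega
    positivity
  have hn0 : 0 < n := by omega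
  exact ⟨h, fun B hB =>
    ⟨⟨fun hy => complete (gridInstance p B hB) _ _ h hkey hy, fun hy => sound _ _ hpos hy⟩,
      ⟨fun hy => sound' _ _ hy,
        fun hy => complete' (gridInstance p B hB) hn0 _ _ h hkey hy⟩⟩⟩

open Classical in
theorem main {n N : ℕ} (hn : 2 ≤ n) (hN : 1 ≤ N) :
    ((Finset.univ.filter fun p : Fin n ↪ Fin N × Fin N => ¬ Robust p).card : ℝ) ≤
      20 * (n : ℝ) ^ 2 / (N : ℝ) ^ (1 / 4 : ℝ) *
        (Fintype.card (Fin n ↪ Fin N × Fin N) : ℝ) := by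
  obtain ⟨m, rfl⟩ : ∃ m, n = m + 2 := ⟨n - 2, by omega⟩
  set G : ℝ := (N : ℝ) ^ (1 / 4 : ℝ) with hGdef
  have hN' : (1 : ℝ) ≤ N := by exact_mod_cast hN
  have hG1 : 1 ≤ G := Real.one_le_rpow hN' (by norm_num)
  have hG0 : 0 < G := by linarith
  have hG : G ^ 4 = N := by
    rw [hGdef, ← Real.rpow_natCast, ← Real.rpow_mul (by linarith)]
    norm_num
  have hsq : Real.sqrt N = G ^ 2 := by
    rw [← hG, show G ^ 4 = (G ^ 2) ^ 2 by ring]
    exact Real.sqrt_sq (by positivity)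
  have hδ : 1 / (6 * N * Real.sqrt N) = (G ^ 3) ^ 2 / (6 * (N : ℝ) ^ 3) := by
    rw [hsq, ← hG]; field_simp
  set T := Finset.univ.filter fun p : Fin (m + 2) ↪ Fin N × Fin N => ¬ Robust p with hT
  have hcount := count_bad G hG1 hG T (by
    intro p hp
    rw [hT, Finset.mem_filter] at hp
    have hng : ¬ (gridInstance p 1 one_pos).Gap (1 / (6 * N * Real.sqrt N)) :=
      fun h => hp.2 (robust_of_gap hn hN p h)
    unfold Instance.Gap at hng
    push Not at hng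
    obtain ⟨σ, ho, B, hB⟩ := hng
    rw [hδ] at hB
    exact ⟨σ, ho, B, hB⟩)
  have hle : (T.card : ℝ) ≤ (Fintype.card (Fin (m + 2) ↪ Fin N × Fin N) : ℝ) := by
    exact_mod_cast Finset.card_le_univ _
  set D : ℝ := (Fintype.card (Fin (m + 1) ↪ Fin N × Fin N) : ℝ) with hD
  have hD0 : 0 ≤ D := by positivity
  by_cases hbig : G ≤ 20 * ((m + 2 : ℕ) : ℝ) ^ 2
  · have h1 : 1 ≤ 20 * ((m + 2 : ℕ) : ℝ) ^ 2 / G := by rw [le_div_iff₀ hG0]; linarith
    calc (T.card : ℝ) ≤ 1 * (Fintype.card (Fin (m + 2) ↪ Fin N × Fin N) : ℝ) := by linarith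
      _ ≤ _ := mul_le_mul_of_nonneg_right h1 (by positivity)
  · push Not at hbig
    have hm1 : ((m + 1 : ℕ) : ℝ) ≤ G := by
      have : ((m + 1 : ℕ) : ℝ) ≤ 20 * ((m + 2 : ℕ) : ℝ) ^ 2 := by
        push_cast; nlinarith [(Nat.cast_nonneg m : (0:ℝ) ≤ m)]
      linarith
    have hG80 : 80 ≤ G := by
      have : (80 : ℝ) ≤ 20 * ((m + 2 : ℕ) : ℝ) ^ 2 := by
        push_cast; nlinarith [(Nat.cast_nonneg m : (0:ℝ) ≤ m)]
      linarith
    have hhalf : ((m + 1 : ℕ) : ℝ) ≤ G ^ 8 / 2 := by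
      have h1 : 1 ≤ G ^ 6 := one_le_pow₀ hG1
      have h2 : G ^ 2 ≤ G ^ 8 := pow_le_pow_right₀ hG1 (by norm_num)
      have h3 : 2 * G ≤ G ^ 2 := by nlinarith
      linarith
    have hcardα : Fintype.card (Fin N × Fin N) = N ^ 2 := by
      rw [Fintype.card_prod, Fintype.card_fin]; ring
    have hN2 : ((N ^ 2 : ℕ) : ℝ) = G ^ 8 := by push_cast; rw [← hG]; ring
    have hmN : m + 1 ≤ N ^ 2 := by
      have : ((m + 1 : ℕ) : ℝ) ≤ ((N ^ 2 : ℕ) : ℝ) := by
        rw [hN2]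
        have : 0 ≤ G ^ 8 := by positivity
        linarith
      exact_mod_cast this
    have hcard : (Fintype.card (Fin (m + 2) ↪ Fin N × Fin N) : ℝ) =
        (G ^ 8 - ((m + 1 : ℕ) : ℝ)) * D := by
      rw [hD, Fintype.card_embedding_eq, Fintype.card_embedding_eq, Fintype.card_fin,
        Fintype.card_fin, hcardα, Nat.descFactorial_succ, Nat.cast_mul, Nat.cast_sub hmN, hN2]
    rw [hcard]
    have h1 : G ^ 8 / 2 * D ≤ (G ^ 8 - ((m + 1 : ℕ) : ℝ)) * D :=
      mul_le_mul_of_nonneg_right (by linarith) hD0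
    calc (T.card : ℝ) ≤ (10 * ((m : ℝ) + 1) ^ 2 * G ^ 7) * D := hcount
      _ ≤ (10 * ((m + 2 : ℕ) : ℝ) ^ 2 * G ^ 7) * D := by
          apply mul_le_mul_of_nonneg_right _ hD0
          apply mul_le_mul_of_nonneg_right _ (by positivity)
          apply mul_le_mul_of_nonneg_left _ (by norm_num)
          push_cast
          apply pow_le_pow_left₀ (by positivity)
          linarith
      _ = 20 * ((m + 2 : ℕ) : ℝ) ^ 2 / G * (G ^ 8 / 2 * D) := by field_simp; ring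
      _ ≤ _ := mul_le_mul_of_nonneg_left h1 (by positivity)

end Pool.Agent.Helper52.ETSP.Gen
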