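import Mathlib
import Pool.Agent.Helper52.ETSP.Edges

/-! Main theorems on the classes P and NP. -/

namespace Pool.Agent.Helper52.ETSP.Conv

open Poly

theorem sz_perm {l m : List (ℤ × ℤ)} (h : l.Perm m) : sz l = sz m := by
  induction h with
  | nil => rfl
  | cons x _ ih => rw [sz_cons, sz_cons, ih]
  | swap x y l => rw [sz_cons, sz_cons, sz_cons, sz_cons]; omega
  | trans _ _ ih1 ih2 => rw [ih1, ih2]

/-- the nondeterministic reduction: guess a tour, output its edges -/
def ver (x : Instance × List Bool) : (List (ℕ × ℕ) × ℕ) × List Bool :=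
  ((edges ((guess (List.ofFn x.1.pt, x.2)).2.1 ++ (guess (List.ofFn x.1.pt, x.2)).2.2),
    x.1.bound), (guess (List.ofFn x.1.pt, x.2)).1.2.reverse)

theorem PF.ver : PF ver := by
  have h1 : PF (fun x : Instance × List Bool => Conv.unI x.1) := PF.unI.comp PF.fst
  have h2 : PF (fun x : Instance × List Bool => Conv.guess (List.ofFn x.1.pt, x.2)) :=
    PF.guess.comp (PF.pair (PF.fst' h1) PF.snd)
  exact PF.pair (PF.pair (PF.edges (PF.append (PF.fst' (PF.snd' h2)) (PF.snd' (PF.snd' h2))))
    (PF.snd' h1)) (PF.reverse (PF.snd' (PF.fst' h2)))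

theorem np_of_np (h : InNP SSR) : InNP Instance.Yes := by
  have hE : PF (fun x : List (ℤ × ℤ) × ℕ => (edges x.1, x.2)) :=
    PF.pair (PF.edges PF.fst) PF.snd
  obtain ⟨Q, hQ⟩ := hE.size_le
  refine InNP.nreduce PF.ver ?_ (2 * (Polynomial.X * (Polynomial.X + 1)) + 1) Q ?_ h
  · intro I w hw
    obtain ⟨σ, hσ⟩ := exists_perm I.pt I.inj _ (guess_perm (List.ofFn I.pt) w)
    refine ⟨σ, ?_⟩
    rw [← edges_sum, ← hσ]
    exact hw
  · rintro I ⟨σ, hσ⟩
    have hp : (List.ofFn (fun i => I.pt (σ i))).Perm (List.ofFn I.pt) :=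
      Equiv.Perm.ofFn_comp_perm σ I.pt
    obtain ⟨w1, hw1, hw⟩ := guess_all (List.ofFn I.pt) _ hp
    have hsz : sz (List.ofFn (fun i => I.pt (σ i)), I.bound) = sz I := by
      rw [sz_pair, sz_perm hp]
      exact (sz_pair (List.ofFn I.pt) I.bound).symm
    refine ⟨w1, (edges (List.ofFn (fun i => I.pt (σ i))), I.bound), ?_, ?_, ?_, ?_⟩
    · have h1 := length_le_sz (List.ofFn I.pt)
      have h2 : sz I = 1 + sz (List.ofFn I.pt) + sz I.bound := sz_pair (List.ofFn I.pt) I.bound
      have h3 : (List.ofFn I.pt).length ≤ sz I := by omega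
      have h4 := Nat.mul_le_mul h3 (Nat.add_le_add_right h3 1)
      simp only [Polynomial.eval_add, Polynomial.eval_mul, Polynomial.eval_X,
        Polynomial.eval_ofNat, Polynomial.eval_one]
      omega
    · unfold SSR
      simp only
      rw [edges_sum]
      exact hσ
    · rw [← hsz]
      exact hQ (List.ofFn (fun i => I.pt (σ i)), I.bound)
    · intro w2
      obtain ⟨e1, e2⟩ := hw w2
      unfold ver
      simp only
      rw [e1, e2]

theorem np_iff : InNP Instance.Yes ↔ InNP SSR :=
  ⟨fun h => h.reduce PF.redI (fun x => (redI_yes x).symm), np_of_np⟩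

theorem p_of_p (h : InP Instance.Yes) : InP SSR :=
  h.reduce PF.redI (fun x => (redI_yes x).symm)

/-- the reduction with values in the instances in convex position -/
def redC (x : List (ℕ × ℕ) × ℕ) : CInstance := ⟨redI x, redPts_conv x.1⟩

theorem PF.redC : PF redC := PF.redI.congr (fun _ => rfl)

theorem p_iff : InP (fun I : CInstance => I.1.Yes) ↔ InP SSR :=
  ⟨fun h => h.reduce PF.redC (fun x => (redI_yes x).symm),
    fun h => h.reduce (PF.toSSR.comp PF.cval) (fun I => toSSR_iff I)⟩

end Pool.Agent.Helper52.ETSP.Conv
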